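import Pool.Agent.U553.DL.Zeta

/-!
# Double values of one weight are independent in the quasi-shuffle algebra
-/

set_option autoImplicit false

namespace Pool.Agent.U553.DL

open Finset Pool.Agent.Y760.ZF
open Pool.Agent.X90.DB (Ad)
open Pool.Agent.X90.DC

/-- power sums -/
noncomputable def pw (B : List ℂ) (s : ℕ) : ℂ := (B.map fun a => a ^ s).sum

lemma pw_append (B B' : List ℂ) (s : ℕ) : pw (B ++ B') s = pw B s + pw B' s := by
  rw [pw, List.map_append, List.sum_append, pw, pw]

lemma pw_scale (l : ℂ) (B : List ℂ) (s : ℕ) : pw (B.map (l * ·)) s = l ^ s * pw B s := by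
  induction B with
  | nil => simp [pw]
  | cons b B ih =>
    unfold pw at ih ⊢
    rw [List.map_cons, List.map_cons, List.sum_cons, ih, List.map_cons, List.sum_cons, mul_pow]
    ring

lemma Zt_pw (B : List ℂ) (s : ℕ) : Zt B [s] = pw B s := Zt_one B s

lemma Zt_two_append (B B' : List ℂ) (a b : ℕ) :
    Zt (B ++ B') [a, b] = Zt B [a, b] + pw B a * pw B' b + Zt B' [a, b] := by
  induction B with
  | nil => simp [pw, Zt]
  | cons c B ih =>
    rw [List.cons_append, Zt, Zt, ih, Zt_pw, Zt_pw, pw_append]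
    have h1 : pw (c :: B) a = c ^ a + pw B a := by
      unfold pw
      rw [List.map_cons, List.sum_cons]
    rw [h1]
    ring

lemma Zt_two_scale (l : ℂ) (B : List ℂ) (a b : ℕ) :
    Zt (B.map (l * ·)) [a, b] = l ^ (a + b) * Zt B [a, b] := by
  induction B with
  | nil => simp [Zt]
  | cons c B ih =>
    rw [List.map_cons, Zt, Zt, ih, Zt_pw, Zt_pw, pw_scale, mul_pow, pow_add]
    ring

lemma Zt_sym (B : List ℂ) (a b : ℕ) : Zt B [a, b] + Zt B [b, a] = pw B a * pw B b - pw B (a + b) := by
  have h1 := Zt_mul B [a] [b]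
  rw [sti, sti, sti, sti] at h1
  simp only [List.map_cons, List.map_nil, List.cons_append, List.nil_append,
    List.sum_cons, List.sum_nil, add_zero, Zt_pw] at h1
  rw [h1]
  ring

/-- an antisymmetric correction -/
lemma corr (k a : ℕ) (ha : 1 ≤ a) (hak : a < k - a) (δ : ℂ) : ∃ L : List ℂ, (∀ s, 1 ≤ s → s ≤ k → pw L s = 0) ∧
    ∀ a', 1 ≤ a' → a' < k → Zt L [a', k - a'] = (if a' = a then δ else 0) - (if a' = k - a then δ else 0) := by
  have hp : ∀ c : ℕ → ℂ, ∃ B : List ℂ, ∀ s, 1 ≤ s → s ≤ k → pw B s = c s := by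
    intro c
    obtain ⟨B, hB⟩ := powers (Finset.Icc 1 k) c fun s hs => (mem_Icc.1 hs).1
    exact ⟨B, fun s h1 h2 => hB s (mem_Icc.2 ⟨h1, h2⟩)⟩
  obtain ⟨U, hU⟩ := hp fun s => if s = a then δ else 0
  obtain ⟨V, hV⟩ := hp fun s => if s = k - a then 1 else 0
  obtain ⟨U', hU'⟩ := hp fun s => - if s = a then δ else 0
  obtain ⟨V', hV'⟩ := hp fun s => - if s = k - a then 1 else 0
  obtain ⟨l, hl⟩ := IsAlgClosed.exists_pow_nat_eq (-1 : ℂ) (by omega : 0 < k)
  refine ⟨(U ++ (V ++ (U' ++ V'))) ++ ((U ++ (U' ++ (V ++ V'))).map (l * ·)), fun s h1 h2 => ?_,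
    fun a' h1 h2 => ?_⟩
  · rw [pw_append, pw_scale]
    simp only [pw_append, hU s h1 h2, hV s h1 h2, hU' s h1 h2, hV' s h1 h2]
    ring
  · have h3 : 1 ≤ k - a' := by omega
    have h4 : k - a' ≤ k := Nat.sub_le _ _
    have h5 : a' + (k - a') = k := by omega
    rw [Zt_two_append, Zt_two_scale, pw_scale, h5, hl]
    simp only [Zt_two_append, pw_append, hU a' h1 h2.le, hV a' h1 h2.le, hU' a' h1 h2.le, hV' a' h1 h2.le,
      hU _ h3 h4, hV _ h3 h4, hU' _ h3 h4, hV' _ h3 h4]
    by_cases e1 : a' = a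
    · have e2 : k - a' = k - a := by rw [e1]
      have e3 : a' ≠ k - a := by omega
      have e4 : k - a' ≠ a := by omega
      simp only [if_pos e1, if_neg e3, if_neg e4, if_pos e2]
      ring
    · by_cases e3 : a' = k - a
      · have e4 : k - a' = a := by omega
        have e5 : k - a' ≠ k - a := by omega
        simp only [if_neg e1, if_pos e3, if_pos e4, if_neg e5]
        ring
      · have e4 : k - a' ≠ a := by omega
        have e5 : k - a' ≠ k - a := by omega
        simp only [if_neg e1, if_neg e3, if_neg e4, if_neg e5]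
        ring

/-- all antisymmetric values -/
lemma corr_all (k : ℕ) (d : ℕ → ℂ) (A : Finset ℕ) : (∀ a ∈ A, 1 ≤ a ∧ a < k - a) → ∃ L : List ℂ,
    (∀ s, 1 ≤ s → s ≤ k → pw L s = 0) ∧ ∀ a', 1 ≤ a' → a' < k → Zt L [a', k - a'] =
      ∑ a ∈ A, ((if a' = a then d a else 0) - (if a' = k - a then d a else 0)) := by
  classical
  induction A using Finset.induction_on with
  | empty =>
    intro _
    refine ⟨[], fun s _ _ => by simp [pw], fun a' _ _ => ?_⟩
    rw [Zt, sum_empty]
  | insert a A ha ih =>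
    intro hA
    obtain ⟨L, hL1, hL2⟩ := ih fun b hb => hA b (mem_insert_of_mem hb)
    obtain ⟨L', hL1', hL2'⟩ := corr k a (hA a (mem_insert_self _ _)).1 (hA a (mem_insert_self _ _)).2 (d a)
    refine ⟨L' ++ L, fun s h1 h2 => ?_, fun a' h1 h2 => ?_⟩
    · rw [pw_append, hL1 s h1 h2, hL1' s h1 h2, add_zero]
    · rw [Zt_two_append, hL2 a' h1 h2, hL2' a' h1 h2, hL1' a' h1 h2.le, zero_mul, add_zero, sum_insert ha]

/-- **prescribed values of all double values of weight `k` and of the single value** -/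
theorem exists_dbl (k : ℕ) (c : ℕ → ℂ) (e : ℂ) (hk : 1 ≤ k) : ∃ B : List ℂ, Zt B [k] = e ∧
    ∀ a, 1 ≤ a → a < k → Zt B [a, k - a] = c a := by
  classical
  obtain ⟨B, hB⟩ := powers (Finset.Icc 1 k) (fun s => if s = k then e else if s < k - s then c s + c (k - s) + e
    else if s = k - s then (2 * c s + e) ^ (1 / 2 : ℂ) else 1) fun s hs => (mem_Icc.1 hs).1
  have hB' : ∀ s, 1 ≤ s → s ≤ k → pw B s = if s = k then e else if s < k - s then c s + c (k - s) + e
    else if s = k - s then (2 * c s + e) ^ (1 / 2 : ℂ) else 1 := fun s h1 h2 => hB s (mem_Icc.2 ⟨h1, h2⟩)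
  have hBk : pw B k = e := by
    rw [hB' k hk le_rfl, if_pos rfl]
  have hprod : ∀ a, 1 ≤ a → a < k → pw B a * pw B (k - a) = c a + c (k - a) + e := by
    intro a h1 h2
    have h3 : 1 ≤ k - a := by omega
    have h4 : k - (k - a) = a := by omega
    rw [hB' a h1 h2.le, hB' (k - a) h3 (Nat.sub_le _ _), if_neg (by omega), if_neg (by omega : k - a ≠ k), h4]
    rcases lt_trichotomy a (k - a) with h | h | h
    · rw [if_pos h, if_neg (by omega), if_neg (by omega), mul_one]
    · rw [if_neg (by omega), if_pos h, if_neg (by omega), if_pos h.symm, ← h]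
      have h5 : ((2 * c a + e) ^ (1 / 2 : ℂ)) * ((2 * c a + e) ^ (1 / 2 : ℂ)) = 2 * c a + e := by
        rw [← sq, one_div]
        have := Complex.cpow_nat_inv_pow (2 * c a + e) (n := 2) (by norm_num)
        simp
      rw [h5]
      ring
    · rw [if_neg (by omega), if_neg (by omega), if_pos h, one_mul]
      ring
  set d : ℕ → ℂ := fun a => c a - Zt B [a, k - a] with hd
  have hanti : ∀ a, 1 ≤ a → a < k → d a + d (k - a) = 0 := by
    intro a h1 h2
    have h3 := Zt_sym B a (k - a)
    have h4 : k - (k - a) = a := by omega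
    rw [hprod a h1 h2, show a + (k - a) = k by omega, hBk] at h3
    rw [hd]
    simp only [h4]
    linear_combination -h3
  obtain ⟨L, hL1, hL2⟩ := corr_all k d ((Finset.Icc 1 k).filter fun a => a < k - a) fun a ha => by
    rw [mem_filter, mem_Icc] at ha
    exact ⟨ha.1.1, ha.2⟩
  refine ⟨L ++ B, ?_, fun a h1 h2 => ?_⟩
  · rw [Zt_pw, pw_append, hL1 k hk le_rfl, zero_add, hBk]
  · rw [Zt_two_append, hL1 a h1 h2.le, zero_mul, add_zero, hL2 a h1 h2, sum_sub_distrib]
    have e1 : ∑ b ∈ (Finset.Icc 1 k).filter (fun a => a < k - a), (if a = b then d b else 0) =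
        if a < k - a then d a else 0 := by
      rw [sum_ite_eq]
      by_cases h : a < k - a
      · rw [if_pos h, if_pos (by rw [mem_filter, mem_Icc]; exact ⟨⟨h1, h2.le⟩, h⟩)]
      · rw [if_neg h, if_neg (by rw [mem_filter]; exact fun h' => h h'.2)]
    have e2 : ∑ b ∈ (Finset.Icc 1 k).filter (fun a => a < k - a), (if a = k - b then d b else 0) =
        if k - a < a then d (k - a) else 0 := by
      by_cases h : k - a < a
      · rw [if_pos h, sum_eq_single (k - a)]
        · rw [if_pos (by omega)]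
        · intro b hb hne
          rw [mem_filter, mem_Icc] at hb
          rw [if_neg (by omega)]
        · intro h'
          exfalso
          apply h'
          rw [mem_filter, mem_Icc]
          omega
      · rw [if_neg h]
        refine sum_eq_zero fun b hb => ?_
        rw [mem_filter, mem_Icc] at hb
        rw [if_neg (by omega)]
    rw [e1, e2]
    have h5 : Zt B [a, k - a] = c a - d a := by
      rw [hd]
      ring
    rw [h5]
    rcases lt_trichotomy a (k - a) with h | h | h
    · rw [if_pos h, if_neg (by omega)]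
      ring
    · rw [if_neg (by omega), if_neg (by omega)]
      have h6 := hanti a h1 h2
      rw [← h] at h6
      have h7 : d a = 0 := by linear_combination h6 / 2
      rw [h7]
      ring
    · rw [if_neg (by omega), if_pos h]
      have h6 := hanti a h1 h2
      linear_combination -h6

/-- **the single value and the double values of weight `k` are formally independent** -/
theorem FI_dbl {n k : ℕ} (hk : 1 ≤ k) {W : Fin n → List ℕ} (hW : Function.Injective W)
    (h : ∀ i, W i = [k] ∨ ∃ a, 1 ≤ a ∧ a < k ∧ W i = [a, k - a]) : FI W := by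
  classical
  intro P hP
  by_contra hne
  obtain ⟨c, hc⟩ := exists_nonzero P hne
  obtain ⟨B, hB1, hB2⟩ := exists_dbl k (fun a => if h : ∃ i, W i = [a, k - a] then c h.choose else 0)
    (if h : ∃ i, W i = [k] then c h.choose else 0) hk
  refine hc ?_
  have h2 := hP ℂ (Zt B) fun u v _ _ => Zt_mul B u v
  rw [← h2]
  congr 2
  funext i
  rcases h i with hi | ⟨a, ha1, ha2, hi⟩
  · have h3 : ∃ j, W j = [k] := ⟨i, hi⟩
    rw [dif_pos h3] at hB1
    rw [hi, hB1]
    exact congrArg c (hW (hi.trans h3.choose_spec.symm))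
  · have h3 : ∃ j, W j = [a, k - a] := ⟨i, hi⟩
    have h4 := hB2 a ha1 ha2
    rw [dif_pos h3] at h4
    rw [hi, h4]
    exact congrArg c (hW (hi.trans h3.choose_spec.symm))

end Pool.Agent.U553.DL
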