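import Pool.Agent.X90.DC.Zth

/-!
# Polynomial relations between multiple zeta values with large first arguments
-/

set_option autoImplicit false

namespace Pool.Agent.U553.DL

open Finset Pool.Agent.Y760.ZF
open Pool.Agent.Y760.ZG (mz)
open Pool.Agent.X90.DA (fx eval_sum)
open Pool.Agent.X90.DB
open Pool.Agent.X90.DC

/-- a polynomial relation with coefficients of exponential height between multiple zeta values whose first arguments are
at least `N` is a consequence of the stuffle product -/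
theorem pureP (r D ℓ κ : ℕ) (C : ℝ) : ∃ n0 : ℕ, ∀ N : ℕ, n0 ≤ N → ∀ W : Fin r → List ℕ,
    (∀ i, Cl N ((κ : ℝ) * N) ℓ (W i)) → (∀ i, W i = [] ∨ Ad (W i)) →
    ∀ P : MvPolynomial (Fin 0 ⊕ Fin r) ℤ, P.totalDegree ≤ D → (∀ m, |((P.coeff m : ℤ) : ℝ)| ≤ C ^ N) →
    MvPolynomial.aeval (Sum.elim (fun j : Fin 0 => j.elim0) fun i => ((mz (W i) : ℝ) : ℂ)) P = 0 →
    ∀ (A : Type) [CommRing A] (Z : List ℕ → A),
      (∀ u v, Ad u → Ad v → Z u * Z v = ((sti u v).map Z).sum) →
      MvPolynomial.aeval (Sum.elim (fun j : Fin 0 => j.elim0) fun i => ex Z (W i)) P = 0 := by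
  classical
  set S : ℕ := (3 ^ (r * D * ℓ)) ^ (r * D) with hS
  set C1 : ℝ := ((D + 1) ^ r * S + 1) with hC1
  have hC11 : 1 ≤ C1 := by
    rw [hC1]
    exact le_add_of_nonneg_left (by positivity)
  have hC0 : 0 ≤ |C| := abs_nonneg C
  obtain ⟨n0, hpure⟩ := pure_zero ((D + 1) ^ r * S) (r * D * ℓ) ((r * D * κ : ℕ) : ℝ) (C1 * (1 + |C|))
  refine ⟨n0 + (r * D * ℓ + 2), fun N hN W hCl hAd P hPD hPC hP0 A _ Z hZ => ?_⟩
  have hN1 : 1 ≤ N := by omega
  have hlen : ∀ e : Fin r → Fin (D + 1), (lst W fun i => (e i : ℕ)).length ≤ r * D := by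
    intro e
    rw [length_lst]
    calc ∑ i, ((e i : Fin (D + 1)) : ℕ) ≤ ∑ _i : Fin r, D :=
          sum_le_sum fun i _ => Nat.lt_succ_iff.1 (e i).2
      _ = r * D := by simp
  have hCl : ∀ e : Fin r → Fin (D + 1), ∀ u ∈ lst W fun i => (e i : ℕ), Cl N ((κ : ℝ) * N) ℓ u := by
    intro e u hu
    obtain ⟨i, rfl⟩ := mem_lst hu
    exact hCl i
  have hcnt : ∀ e : Fin r → Fin (D + 1), (stil (lst W fun i => (e i : ℕ))).length ≤ S := by
    intro e
    refine (stil_count ℓ _ fun u hu => (hCl e u hu).1).2.trans ?_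
    rw [hS]
    refine (Nat.pow_le_pow_left (Nat.pow_le_pow_right (by omega)
      (Nat.mul_le_mul_right ℓ (hlen e))) _).trans ?_
    exact Nat.pow_le_pow_right (Nat.one_le_pow _ _ (by omega)) (hlen e)
  set ρ : (Fin 0 → Fin (D + 1)) → Fin (0 + 1) → ℤ := fun _ _ => 1 with hρ
  have h2 : ∀ (B : Type) [CommRing B] (m : Fin 0 → Fin (D + 1)), ((1 : ℕ) : B) *
      ∏ j, (fun j : Fin 0 => (j.elim0 : B)) j ^ ((m j : Fin (D + 1)) : ℕ) =
      ∑ μ : Fin (0 + 1), (ρ m μ : B) * (fun _ : Fin (0 + 1) => (1 : B)) μ := by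
    intro B _ m
    rw [hρ]
    simp
  have hval := val_eq (A := ℂ) hPD (h2 ℂ) W (fun u => ((mz u : ℝ) : ℂ)) (fun e => by
    have h1 := mz_prod (by positivity) _ (hCl e) (by
      have := Nat.mul_le_mul_right ℓ (hlen e)
      omega)
    rw [prod_lst] at h1
    have h2 := congrArg (fun y : ℝ => (y : ℂ)) h1
    push_cast at h2
    rw [h2]
    generalize stil (lst W fun i => (e i : ℕ)) = T
    induction T with
    | nil => simp
    | cons a T ih => simp [ih])
  rw [hP0, mul_zero] at hval
  have hzero : ∀ y ∈ La D W, cf P ρ W y 0 = 0 := by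
    refine hpure N (by omega) (La D W) ?_ (fun y hy => ?_) (fun y => cf P ρ W y 0) (fun y hy => ?_) ?_
    · rw [La]
      calc (univ.biUnion fun e : Fin r → Fin (D + 1) =>
            (stil (lst W fun i => (e i : ℕ))).toFinset).card ≤
          ∑ e : Fin r → Fin (D + 1), (stil (lst W fun i => (e i : ℕ))).toFinset.card :=
            card_biUnion_le
        _ ≤ ∑ _e : Fin r → Fin (D + 1), S :=
            sum_le_sum fun e _ => (List.toFinset_card_le _).trans (hcnt e)
        _ = (D + 1) ^ r * S := by simp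
    · rw [La, mem_biUnion] at hy
      obtain ⟨e, -, hy⟩ := hy
      rw [List.mem_toFinset] at hy
      have h1 := stil_Cl (by positivity) _ (hCl e) y hy
      have h2 := hlen e
      refine ⟨h1.1.trans (Nat.mul_le_mul_right _ h2), ⟨fun m hm => ⟨(h1.2.1 m hm).1, ?_⟩, h1.2.2⟩⟩
      refine (h1.2.1 m hm).2.trans ?_
      have h3 : (((lst W fun i => (e i : ℕ)).length : ℕ) : ℝ) ≤ ((r * D : ℕ) : ℝ) := by
        exact_mod_cast h2
      calc (((lst W fun i => (e i : ℕ)).length : ℕ) : ℝ) * ((κ : ℝ) * N) ≤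
          ((r * D : ℕ) : ℝ) * ((κ : ℝ) * N) := mul_le_mul_of_nonneg_right h3 (by positivity)
        _ = _ := by push_cast; ring
    · -- heights
      have hCN : ∀ m, |((P.coeff m : ℤ) : ℝ)| ≤ |C| ^ N := fun m =>
        (hPC m).trans ((le_abs_self _).trans (abs_pow _ _).le)
      unfold cf
      push_cast
      calc |∑ e : Fin r → Fin (D + 1), (∑ m : Fin 0 → Fin (D + 1),
            ((P.coeff (fx (Sum.elim m e)) : ℤ) : ℝ) * (ρ m 0 : ℝ)) *
            (((stil (lst W fun i => (e i : ℕ))).countP (· = y) : ℕ) : ℝ)| ≤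
          ∑ _e : Fin r → Fin (D + 1), (|C| ^ N) * (S : ℝ) := by
            refine (abs_sum_le_sum_abs _ _).trans (sum_le_sum fun e _ => ?_)
            rw [abs_mul, Nat.abs_cast]
            refine mul_le_mul ?_ ?_ (Nat.cast_nonneg _) (by positivity)
            · rw [Fintype.sum_unique, hρ]
              simp only [Int.cast_one, mul_one]
              exact hCN _
            · exact_mod_cast List.countP_le_length.trans (hcnt e)
        _ = ((D + 1) ^ r * S) * |C| ^ N := by
            rw [sum_const, card_univ, Fintype.card_fun, Fintype.card_fin, Fintype.card_fin,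
              nsmul_eq_mul]
            push_cast
            ring
        _ ≤ C1 * (1 + |C|) ^ N := by
            refine mul_le_mul (by rw [hC1]; linarith) ?_ (by positivity) (by linarith)
            exact pow_le_pow_left₀ hC0 (by linarith) _
        _ ≤ C1 ^ N * (1 + |C|) ^ N := by
            refine mul_le_mul_of_nonneg_right ?_ (by positivity)
            exact le_self_pow₀ hC11 (by omega)
        _ = (C1 * (1 + |C|)) ^ N := (mul_pow _ _ _).symm
    · rw [hval]
      refine sum_congr rfl fun w _ => ?_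
      rw [Fin.sum_univ_one]
      simp
  have hval2 := val_eq (A := A) hPD (h2 A) W (ex Z) (fun e => by
      rw [← prod_lst]
      exact prod_ex' hZ _ fun u hu => by
        obtain ⟨i, rfl⟩ := mem_lst hu
        exact hAd i)
  rw [Nat.cast_one, one_mul] at hval2
  rw [hval2]
  refine sum_eq_zero fun y hy => ?_
  rw [Fin.sum_univ_one, hzero y hy]
  simp

end Pool.Agent.U553.DL
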