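import Pool.Agent.U553.DL.Germ
import Pool.Agent.U553.DL.Pure

/-!
# Zeta values and multiple zeta values at large arguments over arbitrary constants: deletion
-/

set_option autoImplicit false

namespace Pool.Agent.U553.DL

open Pool.Agent.Y760.ZF
open Pool.Agent.Y760.ZG (mz)
open Pool.Agent.X90.DB
open Pool.Agent.X90.DC

/-- the only polynomial with `P(Z(w_1), …, Z(w_n)) = 0` for all `Z` with the stuffle product is zero -/
def FI {n : ℕ} (W : Fin n → List ℕ) : Prop :=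
  ∀ P : MvPolynomial (Fin n) ℤ, (∀ (A : Type) [CommRing A] (Z : List ℕ → A),
    (∀ u v, Ad u → Ad v → Z u * Z v = ((sti u v).map Z).sum) →
    MvPolynomial.aeval (fun i => Z (W i)) P = 0) → P = 0

lemma FI_one {n : ℕ} {s : Fin n → ℕ} (hs : Function.Injective s) (h1 : ∀ i, 1 ≤ s i) : FI fun i => [s i] := by
  intro P hP
  by_contra hne
  obtain ⟨c, hc⟩ := exists_nonzero P hne
  obtain ⟨Z, hZ, hZc⟩ := exists_Z s hs h1 c
  refine hc ?_
  have h2 := hP ℂ Z fun u v _ _ => hZ u v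
  simp only [hZc] at h2
  exact h2

/-- the tuples of multiple zeta values -/
def Vw (n ℓ κ : ℕ) : Set (ℕ × (Fin n → ℂ)) :=
  {p | ∃ W : Fin n → List ℕ, (∀ i, Cl p.1 ((κ : ℝ) * p.1) ℓ (W i)) ∧ (∀ i, Ad (W i)) ∧ FI W ∧
    p.2 = fun i => ((mz (W i) : ℝ) : ℂ)}

theorem Vw_pure (n ℓ κ D : ℕ) (C : ℝ) : ∃ N0 : ℕ, ∀ p ∈ Vw n ℓ κ, N0 ≤ p.1 → ∀ P : MvPolynomial (Fin n) ℤ,
    P.totalDegree ≤ D → (∀ m, |((P.coeff m : ℤ) : ℝ)| ≤ C ^ p.1) → MvPolynomial.aeval p.2 P = 0 → P = 0 := by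
  obtain ⟨n0, h0⟩ := pureP n D ℓ κ C
  refine ⟨n0, fun p hp hn P hPD hPC hP0 => ?_⟩
  obtain ⟨W, hCl, hAd, hFI, hW⟩ := hp
  refine hFI P fun A _ Z hZ => ?_
  have hC0 : 0 ≤ C ^ p.1 := (abs_nonneg _).trans (hPC 0)
  have h1 := h0 p.1 hn W hCl (fun i => Or.inr (hAd i)) (MvPolynomial.rename Sum.inr P)
    ((MvPolynomial.totalDegree_rename_le _ _).trans hPD) (fun m => ?_) ?_ A Z hZ
  · rw [MvPolynomial.aeval_rename] at h1
    have h2 : ((Sum.elim (fun j : Fin 0 => j.elim0) fun i => ex Z (W i)) ∘ Sum.inr : Fin n → A) =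
        fun i => Z (W i) := by
      funext i
      simp only [Function.comp_apply, Sum.elim_inr]
      exact ex_ne Z (ad_ne (hAd i))
    rw [h2] at h1
    exact h1
  · by_cases hm : ∃ m', Finsupp.mapDomain Sum.inr m' = m
    · obtain ⟨m', rfl⟩ := hm
      rw [MvPolynomial.coeff_rename_mapDomain _ Sum.inr_injective]
      exact hPC m'
    · rw [MvPolynomial.coeff_rename_eq_zero _ _ _ (fun u hu => absurd ⟨u, hu⟩ hm), Int.cast_zero, abs_zero]
      exact hC0
  · rw [MvPolynomial.aeval_rename, ← hP0, hW]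
    rfl

/-- **deletion for multiple zeta values** -/
theorem delW (n ℓ κ a t D : ℕ) (C : ℝ) (α : Fin a → ℂ) (hα : ∀ i, IsAlgebraic ℤ (α i)) :
    ∃ N0 : ℕ, ∀ N : ℕ, N0 ≤ N → ∀ (x : Fin t → ℂ) (W : Fin n → List ℕ),
      (∀ i, Cl N ((κ : ℝ) * N) ℓ (W i)) → (∀ i, Ad (W i)) → FI W → ∃ J : Finset (Fin n), n ≤ J.card + t ∧
      ∀ P : MvPolynomial ((Fin a ⊕ Fin t) ⊕ J) ℤ, P.totalDegree ≤ D →
        (∀ m, |((P.coeff m : ℤ) : ℝ)| ≤ C ^ N) →
        MvPolynomial.aeval (Sum.elim (Sum.elim α x) fun i : J => ((mz (W i) : ℝ) : ℂ)) P = 0 →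
        ∀ y : J → ℂ, MvPolynomial.aeval (Sum.elim (Sum.elim α x) y) P = 0 := by
  obtain ⟨N0, h0⟩ := deletion (Vw n ℓ κ) (Vw_pure n ℓ κ) a t D C α hα
  refine ⟨N0, fun N hN x W hCl hAd hFI => ?_⟩
  exact h0 (N, fun i => ((mz (W i) : ℝ) : ℂ)) ⟨W, hCl, hAd, hFI, rfl⟩ hN x

/-- relations of the second sort of variables over the first -/
def Ind {σ : Type} (u : σ → ℂ) (f : ℕ → ℂ) (S : Finset ℕ) (D : ℕ) (H : ℝ) : Prop :=
  ∀ P : MvPolynomial (σ ⊕ S) ℤ, P.totalDegree ≤ D → (∀ m, |((P.coeff m : ℤ) : ℝ)| ≤ H) →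
    MvPolynomial.aeval (Sum.elim u fun s : S => f s) P = 0 → ∀ y : S → ℂ, MvPolynomial.aeval (Sum.elim u y) P = 0

lemma height_rename {σ τ : Type} (f : σ → τ) (hf : Function.Injective f) {P : MvPolynomial σ ℤ} {H : ℝ}
    (hP : ∀ m, |((P.coeff m : ℤ) : ℝ)| ≤ H) (m : τ →₀ ℕ) :
    |(((MvPolynomial.rename f P).coeff m : ℤ) : ℝ)| ≤ H := by
  by_cases hm : ∃ m', Finsupp.mapDomain f m' = m
  · obtain ⟨m', rfl⟩ := hm
    rw [MvPolynomial.coeff_rename_mapDomain _ hf]
    exact hP m'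
  · rw [MvPolynomial.coeff_rename_eq_zero _ _ _ (fun u hu => absurd ⟨u, hu⟩ hm), Int.cast_zero, abs_zero]
    exact (abs_nonneg _).trans (hP 0)

lemma Ind.mono {σ : Type} {u : σ → ℂ} {f : ℕ → ℂ} {S S' : Finset ℕ} {D D' : ℕ} {H H' : ℝ}
    (h : Ind u f S D H) (hS : S' ⊆ S) (hD : D' ≤ D) (hH : H' ≤ H) : Ind u f S' D' H' := by
  classical
  intro P hPD hPH hP0 y
  set g : σ ⊕ S' → σ ⊕ S := Sum.map id (fun s => ⟨s, hS s.2⟩) with hg
  have hgi : Function.Injective g := by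
    refine Function.injective_id.sumMap fun a b hab => ?_
    exact Subtype.ext (congrArg (fun s : S => (s : ℕ)) hab)
  have h1 := h (MvPolynomial.rename g P) ((MvPolynomial.totalDegree_rename_le _ _).trans (hPD.trans hD))
    (height_rename g hgi fun m => (hPH m).trans hH) (by
      rw [MvPolynomial.aeval_rename, ← hP0]
      congr 2
      funext i
      rcases i with i | i <;> rfl) (fun s => if hs : (s : ℕ) ∈ S' then y ⟨s, hs⟩ else 0)
  rw [MvPolynomial.aeval_rename] at h1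
  rw [← h1]
  congr 2
  funext i
  rcases i with i | i
  · rfl
  · simp [hg]

/-- **deletion for zeta values** -/
theorem delZ (n κ a t D : ℕ) (C : ℝ) (α : Fin a → ℂ) (hα : ∀ i, IsAlgebraic ℤ (α i)) :
    ∃ N0 : ℕ, ∀ N : ℕ, N0 ≤ N → ∀ (x : Fin t → ℂ) (S : Finset ℕ), S.card ≤ n → (∀ s ∈ S, N ≤ s ∧ s ≤ κ * N) →
      ∃ S' : Finset ℕ, S' ⊆ S ∧ S.card ≤ S'.card + t ∧
        Ind (Sum.elim α x) (fun s => ((mz [s] : ℝ) : ℂ)) S' D (C ^ N) := by
  classical
  choose N0 h0 using fun n => delW n 1 κ a t D C α hα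
  refine ⟨2 + ∑ m ∈ Finset.range (n + 1), N0 m, fun N hN x S hSn hS => ?_⟩
  have hNm : N0 S.card ≤ N := by
    have := Finset.single_le_sum (f := N0) (fun _ _ => Nat.zero_le _) (Finset.mem_range.2 (by omega : S.card < n + 1))
    omega
  set e := S.equivFin.symm with he
  set s : Fin S.card → ℕ := fun i => e i with hs
  have hinj : Function.Injective s := fun i j hij => e.injective (Subtype.ext hij)
  have hsS : ∀ i, s i ∈ S := fun i => (e i).2
  have hN2 : 2 ≤ N := by omega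
  obtain ⟨J, hJ, h1⟩ := h0 S.card N hNm x (fun i => [s i]) (fun i => ⟨le_refl 1, fun m hm => by
      rw [List.mem_singleton] at hm
      subst hm
      refine ⟨by have := (hS _ (hsS i)).1; omega, ?_⟩
      exact_mod_cast (hS _ (hsS i)).2, fun k hk => by
      rw [List.head?_cons, Option.mem_some_iff] at hk
      subst hk
      exact (hS _ (hsS i)).1⟩)
    (fun i => ⟨hN2.trans (hS _ (hsS i)).1, fun t ht => absurd ht List.not_mem_nil⟩)
    (FI_one hinj fun i => by have := (hS _ (hsS i)).1; omega)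
  refine ⟨J.image s, ?_, ?_, ?_⟩
  · intro m hm
    obtain ⟨i, -, rfl⟩ := Finset.mem_image.1 hm
    exact hsS i
  · rwa [Finset.card_image_of_injective _ hinj]
  · intro P hPD hPC hP0 y
    have hmem : ∀ m : J.image s, ∃ i : J, s i = m := by
      intro m
      obtain ⟨i, hi, h⟩ := Finset.mem_image.1 m.2
      exact ⟨⟨i, hi⟩, h⟩
    choose g hg using hmem
    set G' : (Fin a ⊕ Fin t) ⊕ J.image s → (Fin a ⊕ Fin t) ⊕ J := Sum.map id g with hG
    have hgi : Function.Injective G' := by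
      refine Function.injective_id.sumMap fun m m' h => ?_
      refine Subtype.ext ?_
      rw [← hg m, ← hg m', h]
    have h2 := h1 (MvPolynomial.rename G' P) ((MvPolynomial.totalDegree_rename_le _ _).trans hPD)
      (height_rename G' hgi hPC) (by
        rw [MvPolynomial.aeval_rename, ← hP0]
        congr 2
        funext i
        rcases i with i | i
        · rfl
        · simp only [hG, Function.comp_apply, Sum.map_inr, Sum.elim_inr]
          rw [hg i]) (fun i => y ⟨s i, Finset.mem_image_of_mem s i.2⟩)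
    rw [MvPolynomial.aeval_rename] at h2
    rw [← h2]
    congr 2
    funext i
    rcases i with i | i
    · rfl
    · simp only [hG, Function.comp_apply, Sum.map_inr, Sum.elim_inr]
      congr 1
      exact Subtype.ext (hg i).symm

end Pool.Agent.U553.DL
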