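import Pool.Agent.U553.DL.Ord
import Pool.Agent.U553.DL.Zeta

/-!
# At most `t` exceptional indices
-/

set_option autoImplicit false

namespace Pool.Agent.U553.DL

open Finset

/-- relations of the second sort of variables over the first -/
def IndX {σ ι : Type} (u : σ → ℂ) (f : ι → ℂ) (S : Finset ι) (D : ℕ) (H : ℝ) : Prop :=
  ∀ P : MvPolynomial (σ ⊕ S) ℤ, P.totalDegree ≤ D → (∀ m, |((P.coeff m : ℤ) : ℝ)| ≤ H) →
    MvPolynomial.aeval (Sum.elim u fun s : S => f s) P = 0 → ∀ y : S → ℂ, MvPolynomial.aeval (Sum.elim u y) P = 0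

/-- `f w` satisfies an algebraic relation over the `u i` and the `f k`, `k ∈ Λ`, which is not trivial in it -/
def DepX {σ ι : Type} (u : σ → ℂ) (f : ι → ℂ) (Λ : Finset ι) (w : ι) (D : ℕ) (H : ℝ) : Prop :=
  ∃ P : MvPolynomial (Option (σ ⊕ Λ)) ℤ, P.totalDegree ≤ D ∧ (∀ m, |((P.coeff m : ℤ) : ℝ)| ≤ H) ∧
    MvPolynomial.aeval (fun o => o.elim (f w) (Sum.elim u fun k : Λ => f k)) P = 0 ∧
    ∃ y : ℂ, MvPolynomial.aeval (fun o => o.elim y (Sum.elim u fun k : Λ => f k)) P ≠ 0

lemma IndX_empty {σ ι : Type} (u : σ → ℂ) (f : ι → ℂ) (D : ℕ) (H : ℝ) : IndX u f ∅ D H := by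
  intro P _ _ hP0 y
  rw [← hP0]
  congr 2
  funext i
  rcases i with i | i
  · rfl
  · exact absurd i.2 (Finset.notMem_empty _)

lemma aeval_option {τ : Type} (v : τ → ℂ) (y : ℂ) (P : MvPolynomial (Option τ) ℤ) :
    MvPolynomial.aeval (fun o : Option τ => o.elim y v) P =
      Polynomial.eval y (Polynomial.map (MvPolynomial.aeval v : MvPolynomial τ ℤ →ₐ[ℤ] ℂ).toRingHom
        (MvPolynomial.optionEquivLeft ℤ τ P)) := by
  induction P using MvPolynomial.induction_on with
  | C a =>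
    rw [MvPolynomial.optionEquivLeft_C]
    simp
  | add p q hp hq => simp only [map_add, hp, hq, Polynomial.map_add, Polynomial.eval_add]
  | mul_X p i hp =>
    rw [map_mul, hp, map_mul, Polynomial.map_mul, Polynomial.eval_mul, MvPolynomial.aeval_X]
    congr 1
    rcases i with _ | i
    · rw [MvPolynomial.optionEquivLeft_X_none]
      simp
    · rw [MvPolynomial.optionEquivLeft_X_some]
      simp

/-- if a polynomial relation in `Y` over trivial relations is zero for all `Y`, it is trivial -/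
lemma triv_of_slices {σ ι : Type} {u : σ → ℂ} {f : ι → ℂ} {S : Finset ι} {D : ℕ} {H : ℝ} (h0 : IndX u f S D H)
    (P : MvPolynomial (Option (σ ⊕ S)) ℤ) (hPD : P.totalDegree ≤ D) (hPH : ∀ m, |((P.coeff m : ℤ) : ℝ)| ≤ H)
    (hP : ∀ y : ℂ, MvPolynomial.aeval (fun o => o.elim y (Sum.elim u fun k : S => f k)) P = 0) (y : ℂ) (y' : S → ℂ) :
    MvPolynomial.aeval (fun o : Option (σ ⊕ S) => o.elim y (Sum.elim u y')) P = 0 := by
  classical
  set Q := MvPolynomial.optionEquivLeft ℤ (σ ⊕ S) P with hQ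
  have h1 : Polynomial.map (MvPolynomial.aeval (Sum.elim u fun k : S => f k) :
      MvPolynomial (σ ⊕ S) ℤ →ₐ[ℤ] ℂ).toRingHom Q = 0 := by
    refine Polynomial.funext fun y => ?_
    rw [← aeval_option, hP, Polynomial.eval_zero]
  have h2 : Polynomial.map (MvPolynomial.aeval (Sum.elim u y') :
      MvPolynomial (σ ⊕ S) ℤ →ₐ[ℤ] ℂ).toRingHom Q = 0 := by
    ext i
    rw [Polynomial.coeff_map, Polynomial.coeff_zero]
    have h3 := congrArg (fun q => Polynomial.coeff q i) h1
    simp only [Polynomial.coeff_map, Polynomial.coeff_zero] at h3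
    refine h0 (Q.coeff i) ((MvPolynomial.totalDegree_coeff_optionEquivLeft_le _ _ _ _).trans hPD) (fun m => ?_) h3 y'
    rw [hQ, MvPolynomial.optionEquivLeft_coeff_coeff]
    exact hPH _
  rw [aeval_option, h2, Polynomial.eval_zero]

lemma indX_insert {σ ι : Type} [DecidableEq ι] {u : σ → ℂ} {f : ι → ℂ} {S : Finset ι} {w : ι} {D : ℕ} {H : ℝ}
    (h0 : IndX u f S D H) (h : ¬ DepX u f S w D H) : IndX u f (insert w S) D H := by
  intro P hPD hPH hP0 y
  set g : σ ⊕ (insert w S : Finset ι) → Option (σ ⊕ S) := Sum.elim (fun s => some (Sum.inl s))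
    (fun k => if hk : (k : ι) ∈ S then some (Sum.inr ⟨k, hk⟩) else none) with hg
  have hne : ∀ k : (insert w S : Finset ι), (k : ι) ∉ S → (k : ι) = w := by
    intro k hk
    rcases Finset.mem_insert.1 k.2 with h | h
    · exact h
    · exact absurd h hk
  have hgi : Function.Injective g := by
    intro a b hab
    rcases a with a | a <;> rcases b with b | b
    · simp only [hg, Sum.elim_inl, Option.some.injEq, Sum.inl.injEq] at hab
      rw [hab]
    · simp only [hg, Sum.elim_inl, Sum.elim_inr] at hab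
      split_ifs at hab
      simp at hab
    · simp only [hg, Sum.elim_inl, Sum.elim_inr] at hab
      split_ifs at hab
      simp at hab
    · simp only [hg, Sum.elim_inr] at hab
      split_ifs at hab with h1 h2 h2
      · simp only [Option.some.injEq, Sum.inr.injEq, Subtype.mk.injEq] at hab
        rw [Subtype.ext hab]
      · rw [Subtype.ext ((hne a h1).trans (hne b h2).symm)]
  have hcomp : ∀ y : {k // k ∈ insert w S} → ℂ,
      (fun o : Option (σ ⊕ S) => o.elim (y ⟨w, Finset.mem_insert_self _ _⟩)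
        (Sum.elim u fun k : S => y ⟨k, Finset.mem_insert_of_mem k.2⟩)) ∘ g = Sum.elim u y := by
    intro y
    funext i
    rcases i with i | i
    · rfl
    · simp only [hg, Function.comp_apply, Sum.elim_inr]
      split_ifs with h1
      · rfl
      · simp only [Option.elim_none]
        congr 1
        exact Subtype.ext (hne i h1).symm
  have hP' := (MvPolynomial.totalDegree_rename_le g P).trans hPD
  have hPH' := height_rename g hgi hPH
  have h1 : MvPolynomial.aeval (fun o : Option (σ ⊕ S) => o.elim (f w) (Sum.elim u fun k : S => f k))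
      (MvPolynomial.rename g P) = 0 := by
    rw [MvPolynomial.aeval_rename, ← hP0, ← hcomp fun k => f k]
  have h2 : ∀ y : ℂ, MvPolynomial.aeval (fun o : Option (σ ⊕ S) => o.elim y (Sum.elim u fun k : S => f k))
      (MvPolynomial.rename g P) = 0 := by
    intro y
    by_contra h3
    exact h ⟨_, hP', hPH', h1, y, h3⟩
  have h3 := triv_of_slices h0 _ hP' hPH' h2 (y ⟨w, Finset.mem_insert_self _ _⟩)
    (fun k => y ⟨k, Finset.mem_insert_of_mem k.2⟩)
  rw [MvPolynomial.aeval_rename, hcomp y] at h3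
  exact h3

lemma DepX.mono {σ ι : Type} {u : σ → ℂ} {f : ι → ℂ} {Λ Λ' : Finset ι} {w : ι} {D : ℕ} {H : ℝ}
    (h : DepX u f Λ w D H) (hΛ : Λ ⊆ Λ') : DepX u f Λ' w D H := by
  obtain ⟨P, h1, h2, h3, y, h4⟩ := h
  set g : Option (σ ⊕ Λ) → Option (σ ⊕ Λ') := Option.map (Sum.map id fun k => ⟨k, hΛ k.2⟩) with hg
  have hgi : Function.Injective g := by
    refine Option.map_injective (Function.injective_id.sumMap fun a b hab => ?_)
    exact Subtype.ext (congrArg (fun s : Λ' => (s : ι)) hab)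
  have hcomp : ∀ z : ℂ, (fun o : Option (σ ⊕ Λ') => o.elim z (Sum.elim u fun k : Λ' => f k)) ∘ g =
      fun o : Option (σ ⊕ Λ) => o.elim z (Sum.elim u fun k : Λ => f k) := by
    intro z
    funext o
    rcases o with _ | (o | o) <;> rfl
  refine ⟨MvPolynomial.rename g P, (MvPolynomial.totalDegree_rename_le _ _).trans h1, height_rename g hgi h2, ?_, y, ?_⟩
  · rw [MvPolynomial.aeval_rename, hcomp]
    exact h3
  · rw [MvPolynomial.aeval_rename, hcomp]
    exact h4

/-- **at most `t` exceptional indices** -/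
theorem globX {σ ι : Type} [LinearOrder ι] {u : σ → ℂ} {f : ι → ℂ} {U : Finset ι} {t m D : ℕ} {H : ℝ}
    (hOD : ∀ S : Finset ι, S ⊆ U → S.card ≤ (t + 1) * (m + 1) → ∀ E : Finset ι, E ⊆ S →
      (∀ w ∈ E, DepX u f (S.filter (· < w)) w D H) → E.card ≤ t) :
    ∃ T : Finset ι, T ⊆ U ∧ T.card ≤ t ∧
      (∀ w ∈ U, w ∉ T → ∀ Λ : Finset ι, Λ ⊆ U → Λ.card ≤ m → (∀ k ∈ Λ, k < w) → ¬ DepX u f Λ w D H) ∧
      ∀ S : Finset ι, S ⊆ U → S.card ≤ m + 1 → Disjoint S T → IndX u f S D H := by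
  classical
  set T : Finset ι := U.filter fun w => ∃ Λ : Finset ι, Λ ⊆ U ∧ Λ.card ≤ m ∧ (∀ k ∈ Λ, k < w) ∧ DepX u f Λ w D H
    with hT
  have hT3 : ∀ w ∈ U, w ∉ T → ∀ Λ : Finset ι, Λ ⊆ U → Λ.card ≤ m → (∀ k ∈ Λ, k < w) → ¬ DepX u f Λ w D H := by
    intro w hw hwT Λ h1 h2 h3 h4
    exact hwT (mem_filter.2 ⟨hw, Λ, h1, h2, h3, h4⟩)
  refine ⟨T, filter_subset _ _, ?_, hT3, fun S => ?_⟩
  · by_contra hcon
    push Not at hcon
    obtain ⟨E, hET, hEc⟩ := exists_subset_card_eq (show t + 1 ≤ T.card by omega)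
    have h1 : ∀ w : E, ∃ Λ : Finset ι, Λ ⊆ U ∧ Λ.card ≤ m ∧ (∀ k ∈ Λ, k < (w : ι)) ∧ DepX u f Λ w D H :=
      fun w => (mem_filter.1 (hET w.2)).2
    choose Λ hΛ1 hΛ2 hΛ3 hΛ4 using h1
    set S : Finset ι := E ∪ univ.biUnion Λ with hS
    have h2 := hOD S (union_subset (hET.trans (filter_subset _ _)) (biUnion_subset.2 fun w _ => hΛ1 w)) (by
      refine (card_union_le _ _).trans ?_
      have h3 : (univ.biUnion Λ).card ≤ (t + 1) * m := by
        refine card_biUnion_le.trans ((sum_le_sum fun w _ => hΛ2 w).trans ?_)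
        rw [sum_const, card_univ, Fintype.card_coe, hEc, smul_eq_mul]
      rw [hEc]
      nlinarith) E subset_union_left fun w hw => by
        refine (hΛ4 ⟨w, hw⟩).mono fun k hk => mem_filter.2 ⟨?_, hΛ3 ⟨w, hw⟩ k hk⟩
        exact mem_union_right _ (mem_biUnion.2 ⟨⟨w, hw⟩, mem_univ _, hk⟩)
    omega
  · induction S using Finset.induction_on_max with
    | empty => exact fun _ _ _ => IndX_empty u f D H
    | insert w S hmax ih =>
      intro hSU hSc hST
      have hwS : w ∉ S := fun h => lt_irrefl w (hmax w h)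
      rw [card_insert_of_notMem hwS] at hSc
      refine indX_insert (ih ((subset_insert _ _).trans hSU) (by omega)
        (disjoint_of_subset_left (subset_insert _ _) hST)) ?_
      exact hT3 w (hSU (mem_insert_self _ _)) (disjoint_left.1 hST (mem_insert_self _ _)) S
        ((subset_insert _ _).trans hSU) (by omega) hmax

/-- from enumerated families to sets -/
theorem od_of {ι : Type} [LinearOrder ι] {a t D : ℕ} {α : Fin a → ℂ} {x : Fin t → ℂ} {f : ι → ℂ} {S : Finset ι}
    {H : ℝ} (h : ∀ E' : Finset (Fin S.card), (∀ i ∈ E', Dep α x (fun i => f (S.orderIsoOfFin rfl i)) i D H) →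
      E'.card ≤ t) (E : Finset ι) (hES : E ⊆ S)
    (hE : ∀ w ∈ E, DepX (Sum.elim α x) f (S.filter (· < w)) w D H) : E.card ≤ t := by
  classical
  set e := S.orderIsoOfFin (rfl : S.card = S.card) with he
  set E' : Finset (Fin S.card) := E.attach.image fun w : {w // w ∈ E} => e.symm ⟨w.1, hES w.2⟩ with hE'
  have hcard : E'.card = E.card := by
    rw [hE', card_image_of_injective, card_attach]
    intro w w' hww
    have h1 := e.symm.injective hww
    exact Subtype.ext (congrArg (fun s : S => (s : ι)) h1)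
  rw [← hcard]
  refine h E' fun i hi => ?_
  obtain ⟨w, -, rfl⟩ := mem_image.1 hi
  obtain ⟨P, h1, h2, h3, y, h4⟩ := hE w w.2
  have hw : ((e (e.symm ⟨w, hES w.2⟩) : S) : ι) = w := by rw [OrderIso.apply_symm_apply]
  have hk : ∀ k : (S.filter (· < (w : ι)) : Finset ι), (k : ι) ∈ S ∧ (k : ι) < w := fun k => mem_filter.1 k.2
  set g : Option ((Fin a ⊕ Fin t) ⊕ (S.filter (· < (w : ι)) : Finset ι)) →
      Option ((Fin a ⊕ Fin t) ⊕ {k : Fin S.card // k < e.symm ⟨w, hES w.2⟩}) :=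
    Option.map (Sum.map id fun k => ⟨e.symm ⟨k, (hk k).1⟩, by
      rw [OrderIso.lt_iff_lt]
      exact (hk k).2⟩) with hg
  have hgi : Function.Injective g := by
    refine Option.map_injective (Function.injective_id.sumMap fun k k' hkk => ?_)
    have h5 := e.symm.injective (Subtype.ext_iff.1 hkk)
    exact Subtype.ext (congrArg (fun s : S => (s : ι)) h5)
  have hcomp : ∀ z : ℂ, (fun o : Option ((Fin a ⊕ Fin t) ⊕ {k : Fin S.card // k < e.symm ⟨w, hES w.2⟩}) =>
      o.elim z (Sum.elim (Sum.elim α x) fun k => f (e (k : Fin S.card)))) ∘ g =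
      fun o => o.elim z (Sum.elim (Sum.elim α x) fun k : (S.filter (· < (w : ι)) : Finset ι) => f k) := by
    intro z
    funext o
    rcases o with _ | (o | o)
    · rfl
    · rfl
    · simp only [hg, Function.comp_apply, Option.map_some, Sum.map_inr, Option.elim_some, Sum.elim_inr]
      rw [OrderIso.apply_symm_apply]
  refine ⟨MvPolynomial.rename g P, (MvPolynomial.totalDegree_rename_le _ _).trans h1, height_rename g hgi h2, ?_, y, ?_⟩
  · have h5 := h3
    rw [← hcomp, ← MvPolynomial.aeval_rename] at h5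
    simp only [hw]
    exact h5
  · have h5 := h4
    rw [← hcomp, ← MvPolynomial.aeval_rename] at h5
    exact h5

open Pool.Agent.Y760.ZF in
open Pool.Agent.Y760.ZG (mz) in
open Pool.Agent.X90.DB in
/-- **at most `t` exceptional words** -/
theorem globW (m ℓ κ a t D : ℕ) (C : ℝ) (α : Fin a → ℂ) (hα : ∀ i, IsAlgebraic ℤ (α i)) :
    ∃ N₀ : ℕ, ∀ N : ℕ, N₀ ≤ N → ∀ (ι : Type) [LinearOrder ι] (W : ι → List ℕ) (U : Finset ι),
      (∀ i ∈ U, Cl N ((κ : ℝ) * N) ℓ (W i)) → (∀ i ∈ U, Ad (W i)) →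
      (∀ (k : ℕ) (s : Fin k → ι), Function.Injective s → (∀ i, s i ∈ U) → FI fun i => W (s i)) →
      ∀ x : Fin t → ℂ, ∃ T : Finset ι, T ⊆ U ∧ T.card ≤ t ∧
      (∀ w ∈ U, w ∉ T → ∀ Λ : Finset ι, Λ ⊆ U → Λ.card ≤ m → (∀ k ∈ Λ, k < w) →
        ¬ DepX (Sum.elim α x) (fun i => ((mz (W i) : ℝ) : ℂ)) Λ w D (C ^ N)) ∧
      ∀ S : Finset ι, S ⊆ U → S.card ≤ m + 1 → Disjoint S T →
        IndX (Sum.elim α x) (fun i => ((mz (W i) : ℝ) : ℂ)) S D (C ^ N) := by
  classical
  choose N0 h0 using fun n => ordered (Vw n ℓ κ) (Vw_pure n ℓ κ) a t D C α hα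
  refine ⟨∑ n ∈ Finset.range ((t + 1) * (m + 1) + 1), N0 n, fun N hN ι _ W U h1 h2 h3 x => ?_⟩
  refine globX fun S hSU hS E hES hE => od_of (fun E' hE' => ?_) E hES hE
  have hmem : ∀ i, ((S.orderIsoOfFin rfl i : S) : ι) ∈ U := fun i => hSU (S.orderIsoOfFin rfl i).2
  refine h0 S.card (N, fun i => ((mz (W (S.orderIsoOfFin rfl i)) : ℝ) : ℂ))
    ⟨fun i => W (S.orderIsoOfFin rfl i), fun i => h1 _ (hmem i), fun i => h2 _ (hmem i), ?_, rfl⟩ ?_ x E' hE'
  · exact h3 _ (fun i => ((S.orderIsoOfFin rfl i : S) : ι))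
      (fun i j hij => (S.orderIsoOfFin rfl).injective (Subtype.ext hij)) hmem
  · exact (Finset.single_le_sum (f := N0) (fun _ _ => Nat.zero_le _)
      (Finset.mem_range.2 (by omega))).trans hN

end Pool.Agent.U553.DL
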