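import Pool.Agent.U553.DL.Glob

/-!
# Ratios `ζ(2 n) / ζ(n) ^ 2` for odd `n`
-/

set_option autoImplicit false

namespace Pool.Agent.U553.DL

open Finset
open Pool.Agent.Y760.ZG (mz)
open Pool.Agent.Y760.ZF (Cl)
open Pool.Agent.X90.DB (Ad)

/-- **at most `t` exceptional elements**, for families which satisfy no relations over `ℤ` -/
theorem globV (V : ∀ n : ℕ, Set (ℕ × (Fin n → ℂ)))
    (h : ∀ (n D : ℕ) (C : ℝ), ∃ N0 : ℕ, ∀ p ∈ V n, N0 ≤ p.1 → ∀ P : MvPolynomial (Fin n) ℤ, P.totalDegree ≤ D →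
      (∀ m, |((P.coeff m : ℤ) : ℝ)| ≤ C ^ p.1) → MvPolynomial.aeval p.2 P = 0 → P = 0)
    (m a t D : ℕ) (C : ℝ) (α : Fin a → ℂ) (hα : ∀ i, IsAlgebraic ℤ (α i)) :
    ∃ N₀ : ℕ, ∀ N : ℕ, N₀ ≤ N → ∀ (ι : Type) [LinearOrder ι] (f : ι → ℂ) (U : Finset ι),
      (∀ (k : ℕ) (s : Fin k → ι), Function.Injective s → (∀ i, s i ∈ U) → (N, fun i => f (s i)) ∈ V k) →
      ∀ x : Fin t → ℂ, ∃ T : Finset ι, T ⊆ U ∧ T.card ≤ t ∧
      (∀ w ∈ U, w ∉ T → ∀ Λ : Finset ι, Λ ⊆ U → Λ.card ≤ m → (∀ k ∈ Λ, k < w) →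
        ¬ DepX (Sum.elim α x) f Λ w D (C ^ N)) ∧
      ∀ S : Finset ι, S ⊆ U → S.card ≤ m + 1 → Disjoint S T → IndX (Sum.elim α x) f S D (C ^ N) := by
  classical
  choose N0 h0 using fun n => ordered (V n) (h n) a t D C α hα
  refine ⟨∑ n ∈ Finset.range ((t + 1) * (m + 1) + 1), N0 n, fun N hN ι _ f U h1 x => ?_⟩
  refine globX fun S hSU hS E hES hE => od_of (fun E' hE' => ?_) E hES hE
  have hmem : ∀ i, ((S.orderIsoOfFin rfl i : S) : ι) ∈ U := fun i => hSU (S.orderIsoOfFin rfl i).2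
  refine h0 S.card (N, fun i => f (S.orderIsoOfFin rfl i)) (h1 _ (fun i => ((S.orderIsoOfFin rfl i : S) : ι))
    (fun i j hij => (S.orderIsoOfFin rfl).injective (Subtype.ext hij)) hmem) ?_ x E' hE'
  exact (Finset.single_le_sum (f := N0) (fun _ _ => Nat.zero_le _) (Finset.mem_range.2 (by omega))).trans hN

/-- `ζ(2 n) / ζ(n) ^ 2` -/
noncomputable def rat (n : ℕ) : ℂ := ((mz [2 * n] : ℝ) : ℂ) / ((mz [n] : ℝ) : ℂ) ^ 2

/-- tuples of ratios -/
def Vr (κ : ℕ) (n : ℕ) : Set (ℕ × (Fin n → ℂ)) :=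
  {p | ∃ s : Fin n → ℕ, Function.Injective s ∧ (∀ i, Odd (s i) ∧ p.1 ≤ s i ∧ s i ≤ κ * p.1) ∧ p.2 = fun i => rat (s i)}

/-- the exponents after clearing denominators -/
noncomputable def ex2 {n : ℕ} (D : ℕ) (m : Fin n →₀ ℕ) : (Fin n ⊕ Fin n) →₀ ℕ :=
  Finsupp.equivFunOnFinite.symm (Sum.elim (fun i => 2 * (D - m i)) m)

lemma ex2_inj {n : ℕ} (D : ℕ) : Function.Injective (ex2 (n := n) D) := by
  intro m m' h
  ext i
  have h1 := DFunLike.congr_fun h (Sum.inr i)
  simpa [ex2] using h1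

lemma ratio_pure (κ n D : ℕ) (C : ℝ) (hz : ∀ s : ℕ, 2 ≤ s → mz [s] ≠ 0) : ∃ N0 : ℕ, ∀ p ∈ Vr κ n, N0 ≤ p.1 →
    ∀ P : MvPolynomial (Fin n) ℤ, P.totalDegree ≤ D → (∀ m, |((P.coeff m : ℤ) : ℝ)| ≤ C ^ p.1) →
      MvPolynomial.aeval p.2 P = 0 → P = 0 := by
  classical
  obtain ⟨N0, h0⟩ := Vw_pure (n + n) 1 (2 * κ) (2 * D * n + D * n) C
  refine ⟨N0 + 2, fun p hp hN P hPD hPC hP0 => ?_⟩
  obtain ⟨s, hs, hsN, hps⟩ := hp
  set s' : Fin n ⊕ Fin n → ℕ := Sum.elim s fun i => 2 * s i with hs'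
  have hinj' : Function.Injective s' := by
    intro i j hij
    rcases i with i | i <;> rcases j with j | j
    · simp only [hs', Sum.elim_inl] at hij
      rw [hs hij]
    · simp only [hs', Sum.elim_inl, Sum.elim_inr] at hij
      obtain ⟨k, hk⟩ := (hsN i).1
      omega
    · simp only [hs', Sum.elim_inl, Sum.elim_inr] at hij
      obtain ⟨k, hk⟩ := (hsN j).1
      omega
    · simp only [hs', Sum.elim_inr] at hij
      rw [hs (show s i = s j by omega)]
  set e : Fin n ⊕ Fin n ≃ Fin (n + n) := finSumFinEquiv with he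
  set W : Fin (n + n) → List ℕ := fun j => [s' (e.symm j)] with hW
  have hs'N : ∀ i, p.1 ≤ s' i ∧ s' i ≤ 2 * κ * p.1 := by
    intro i
    rcases i with i | i
    · have h1 := hsN i
      refine ⟨h1.2.1, h1.2.2.trans ?_⟩
      rw [mul_assoc]
      omega
    · have h1 := hsN i
      simp only [hs', Sum.elim_inr]
      refine ⟨by omega, ?_⟩
      rw [mul_assoc]
      exact Nat.mul_le_mul_left 2 h1.2.2
  have hV : (p.1, fun j => ((mz (W j) : ℝ) : ℂ)) ∈ Vw (n + n) 1 (2 * κ) := by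
    refine ⟨W, fun j => ⟨le_refl 1, fun m hm => ?_, fun k hk => ?_⟩, fun j => ?_, ?_, rfl⟩
    · rw [hW, List.mem_singleton] at hm
      subst hm
      have h1 := hs'N (e.symm j)
      refine ⟨by omega, ?_⟩
      have h2 : ((s' (e.symm j) : ℕ) : ℝ) ≤ ((2 * κ * p.1 : ℕ) : ℝ) := by exact_mod_cast h1.2
      push_cast at h2 ⊢
      exact h2
    · rw [hW, List.head?_cons, Option.mem_some_iff] at hk
      subst hk
      exact (hs'N _).1
    · exact ⟨by have := (hs'N (e.symm j)).1; omega, fun t ht => absurd ht List.not_mem_nil⟩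
    · exact FI_one (hinj'.comp e.symm.injective) fun j => by
        have := (hs'N (e.symm j)).1
        show 1 ≤ s' (e.symm j)
        omega
  have hmD : ∀ m ∈ P.support, ∀ i, m i ≤ D := by
    intro m hm i
    refine (Finset.single_le_sum (f := fun i => m i) (fun _ _ => Nat.zero_le _) (Finset.mem_univ i)).trans ?_
    refine le_trans ?_ hPD
    have h1 := MvPolynomial.le_totalDegree hm
    rwa [Finsupp.sum_fintype _ _ (fun _ => rfl)] at h1
  set Q : MvPolynomial (Fin n ⊕ Fin n) ℤ := ∑ m ∈ P.support, MvPolynomial.monomial (ex2 D m) (P.coeff m) with hQ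
  have hco : ∀ m, Q.coeff (ex2 D m) = P.coeff m := by
    intro m
    rw [hQ, MvPolynomial.coeff_sum]
    by_cases hm : m ∈ P.support
    · rw [Finset.sum_eq_single m]
      · rw [MvPolynomial.coeff_monomial, if_pos rfl]
      · intro m' _ hm'
        rw [MvPolynomial.coeff_monomial, if_neg fun h => hm' (ex2_inj D h)]
      · intro h; exact absurd hm h
    · rw [MvPolynomial.notMem_support_iff.1 hm]
      refine Finset.sum_eq_zero fun m' hm' => ?_
      rw [MvPolynomial.coeff_monomial, if_neg fun h => ?_]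
      rw [ex2_inj D h] at hm'
      exact hm hm'
  have hco0 : ∀ e', (∀ m, ex2 D m ≠ e') → Q.coeff e' = 0 := by
    intro e' he'
    rw [hQ, MvPolynomial.coeff_sum]
    exact Finset.sum_eq_zero fun m' _ => by rw [MvPolynomial.coeff_monomial, if_neg (he' m')]
  have hC0 : 0 ≤ C ^ p.1 := (abs_nonneg _).trans (hPC 0)
  have hQC : ∀ e', |((Q.coeff e' : ℤ) : ℝ)| ≤ C ^ p.1 := by
    intro e'
    by_cases h1 : ∃ m, ex2 D m = e'
    · obtain ⟨m, rfl⟩ := h1
      rw [hco]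
      exact hPC m
    · push Not at h1
      rw [hco0 e' h1, Int.cast_zero, abs_zero]
      exact hC0
  have hQD : Q.totalDegree ≤ 2 * D * n + D * n := by
    rw [hQ]
    refine MvPolynomial.totalDegree_finsetSum_le fun m hm => ?_
    refine (MvPolynomial.totalDegree_monomial_le _ _).trans ?_
    rw [Finsupp.sum_fintype _ _ (fun _ => rfl), Fintype.sum_sum_type]
    refine add_le_add ?_ ?_
    · refine (Finset.sum_le_sum (g := fun _ => 2 * D) fun i _ => ?_).trans (by simp [Nat.mul_comm])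
      simp [ex2]
    · refine (Finset.sum_le_sum (g := fun _ => D) fun i _ => ?_).trans (by simp [Nat.mul_comm])
      simp only [ex2, Finsupp.equivFunOnFinite_symm_apply_apply, Sum.elim_inr]
      exact hmD m hm i
  have hzne : ∀ i, ((mz [s i] : ℝ) : ℂ) ≠ 0 := fun i => by
    have h1 := (hsN i).2.1
    exact_mod_cast hz (s i) (by omega)
  have hval : MvPolynomial.aeval (fun i => ((mz [s' i] : ℝ) : ℂ)) Q =
      (∏ i, ((mz [s i] : ℝ) : ℂ) ^ (2 * D)) * MvPolynomial.aeval p.2 P := by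
    rw [hQ, map_sum, MvPolynomial.aeval_def, MvPolynomial.eval₂_eq', Finset.mul_sum]
    refine Finset.sum_congr rfl fun m hm => ?_
    rw [MvPolynomial.aeval_monomial, Finsupp.prod_fintype _ _ (fun i => pow_zero _), Fintype.prod_sum_type, hps]
    have h1 : ∀ i, ((mz [s' (Sum.inl i)] : ℝ) : ℂ) ^ (ex2 D m) (Sum.inl i) * ((mz [s' (Sum.inr i)] : ℝ) : ℂ) ^ (ex2 D m) (Sum.inr i) =
        ((mz [s i] : ℝ) : ℂ) ^ (2 * D) * rat (s i) ^ m i := by
      intro i
      simp only [ex2, Finsupp.equivFunOnFinite_symm_apply_apply, Sum.elim_inl, Sum.elim_inr, hs', rat]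
      have h2 : 2 * D = 2 * (D - m i) + 2 * m i := by have := hmD m hm i; omega
      conv_rhs => rw [h2, pow_add, div_pow, ← pow_mul]
      field_simp [pow_ne_zero _ (hzne i)]
    rw [← Finset.prod_mul_distrib, Finset.prod_congr rfl fun i _ => h1 i, Finset.prod_mul_distrib]
    ring
  have hQ0 : MvPolynomial.aeval (fun j => ((mz (W j) : ℝ) : ℂ)) (MvPolynomial.rename e Q) = 0 := by
    rw [MvPolynomial.aeval_rename]
    have h1 : (fun j => ((mz (W j) : ℝ) : ℂ)) ∘ e = fun i => ((mz [s' i] : ℝ) : ℂ) := by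
      funext i
      simp only [hW, Function.comp_apply, Equiv.symm_apply_apply]
    rw [h1, hval, hP0, mul_zero]
  have h1 := h0 _ hV (by simp only; omega) (MvPolynomial.rename e Q)
    ((MvPolynomial.totalDegree_rename_le _ _).trans hQD) (height_rename e e.injective hQC) hQ0
  have h2 : Q = 0 := (map_eq_zero_iff _ (MvPolynomial.rename_injective e e.injective)).1 h1
  ext m
  rw [← hco m, h2, MvPolynomial.coeff_zero, MvPolynomial.coeff_zero]

end Pool.Agent.U553.DL
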