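import Mathlib

/-!
# Deleting few elements from an algebraically independent family
-/

set_option autoImplicit false

namespace Pool.Agent.U553.DL

open Set Algebra

lemma encard_univ_fin (n : ℕ) : (univ : Set (Fin n)).encard = n := by
  rw [encard_univ, ENat.card_eq_coe_fintype_card, Fintype.card_fin]

/-- if a family of `n` elements of a field is algebraically independent and `t` arbitrary elements (and some algebraic
elements) are adjoined to the ring of coefficients, the family remains independent after at most `t` deletions -/
theorem exists_indep_over {R K : Type} [CommRing R] [IsDomain R] [Field K] [Algebra R K] [FaithfulSMul R K]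
    {n a t : ℕ} (z : Fin n → K) (hz : AlgebraicIndependent R z) (α : Fin a → K) (hα : ∀ i, IsAlgebraic R (α i))
    (ξ : Fin t → K) : ∃ J : Finset (Fin n), n ≤ J.card + t ∧
      AlgebraicIndependent (adjoin R (range (Sum.elim α ξ))) (fun i : J => z i) := by
  classical
  set X : Set K := range (Sum.elim α ξ) with hX
  set P : Finset (Finset (Fin n)) := Finset.univ.filter fun J => AlgebraicIndepOn (adjoin R X) z (J : Set (Fin n))
    with hP
  have hne : P.Nonempty := by
    refine ⟨∅, ?_⟩
    rw [hP, Finset.mem_filter]
    refine ⟨Finset.mem_univ _, ?_⟩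
    have : IsEmpty ((∅ : Finset (Fin n)) : Set (Fin n)) := by simp
    exact (algebraicIndependent_empty_type_iff).2 Subtype.val_injective
  obtain ⟨J, hJ, hmax⟩ := P.exists_max_image Finset.card hne
  rw [hP, Finset.mem_filter] at hJ
  refine ⟨J, ?_, hJ.2⟩
  -- the matroid
  have halg : ∀ i, IsAlgebraic (adjoin R (X ∪ z '' (J : Set (Fin n)))) (z i) := by
    intro i
    by_cases hi : i ∈ J
    · exact isAlgebraic_algebraMap (⟨z i, subset_adjoin (Or.inr ⟨i, hi, rfl⟩)⟩ :
        adjoin R (X ∪ z '' (J : Set (Fin n))))
    · have h1 : ¬ AlgebraicIndepOn (adjoin R X) z (insert i (J : Set (Fin n))) := by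
        intro h
        have h2 := hmax (insert i J) (by
          rw [hP, Finset.mem_filter]
          refine ⟨Finset.mem_univ _, ?_⟩
          rw [Finset.coe_insert]
          exact h)
        rw [Finset.card_insert_of_notMem hi] at h2
        omega
      have h2 : IsAlgebraic (adjoin (adjoin R X) (z '' (J : Set (Fin n)))) (z i) := by
        by_contra h3
        exact h1 ((AlgebraicIndepOn.insert_iff (by simpa using hi)).2 ⟨hJ.2, h3⟩)
      rw [adjoin_union_eq_adjoin_adjoin]
      exact h2
  have hcl : range z ⊆ (AlgebraicIndependent.matroid R K).closure (range ξ ∪ z '' (J : Set (Fin n))) := by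
    rintro _ ⟨i, rfl⟩
    rw [AlgebraicIndependent.matroid_closure_eq]
    show IsAlgebraic _ _
    refine (halg i).adjoin_of_forall_isAlgebraic fun x hx => ?_
    rcases hx.1 with h | h
    · rw [hX, Sum.elim_range] at h
      rcases h with h | h
      · obtain ⟨j, rfl⟩ := h
        exact (hα j).extendScalars (R := R) (FaithfulSMul.algebraMap_injective _ _)
      · exact absurd (Or.inl h) hx.2
    · exact absurd (Or.inr h) hx.2
  have hind : (AlgebraicIndependent.matroid R K).Indep (range z) := by
    rw [AlgebraicIndependent.matroid_indep_iff]
    exact hz.coe_range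
  have h1 := (AlgebraicIndependent.matroid R K).eRk_mono hcl
  rw [hind.eRk_eq_encard, Matroid.eRk_closure_eq] at h1
  have h2 := h1.trans (Matroid.eRk_le_encard _ _)
  have h3 := h2.trans (encard_union_le _ _)
  have h4 : (range ξ).encard ≤ t := by
    have := encard_image_le ξ univ
    rw [image_univ, encard_univ_fin] at this
    exact this
  have h5 : (z '' (J : Set (Fin n))).encard ≤ J.card := by
    have := encard_image_le z (J : Set (Fin n))
    rwa [encard_coe_eq_coe_finsetCard] at this
  have h6 : (range z).encard = n := by
    rw [← image_univ, hz.injective.encard_image, encard_univ_fin]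
  rw [h6] at h3
  have h7 : (n : ℕ∞) ≤ ((J.card + t : ℕ) : ℕ∞) := by
    refine h3.trans ?_
    rw [add_comm J.card t]
    push_cast
    exact add_le_add h4 h5
  exact_mod_cast h7

end Pool.Agent.U553.DL
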