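import Pool.Agent.U553.DL.Zeta

/-!
# Few exceptional sets
-/

set_option autoImplicit false

namespace Pool.Agent.U553.DL

open Finset

lemma Ind_empty {σ : Type} (u : σ → ℂ) (f : ℕ → ℂ) (D : ℕ) (H : ℝ) : Ind u f ∅ D H := by
  intro P _ _ hP0 y
  rw [← hP0]
  congr 2
  funext i
  rcases i with i | i
  · rfl
  · exact absurd i.2 (Finset.notMem_empty _)

/-- a deletion property gives a bound for the number of disjoint exceptional sets -/
theorem disjoint_of_del {σ : Type} {u : σ → ℂ} {f : ℕ → ℂ} {A D k t : ℕ} {B : ℕ} {H : ℝ}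
    (h : ∀ S : Finset ℕ, S.card ≤ k * (t + 1) → (∀ s ∈ S, A ≤ s ∧ s ≤ B) →
      ∃ S' : Finset ℕ, S' ⊆ S ∧ S.card ≤ S'.card + t ∧ Ind u f S' D H)
    (E : Fin (t + 1) → Finset ℕ) (hE : ∀ i, (E i).card ≤ k ∧ ∀ s ∈ E i, A ≤ s ∧ s ≤ B)
    (hd : ∀ i j, i ≠ j → Disjoint (E i) (E j)) : ∃ i, Ind u f (E i) D H := by
  classical
  obtain ⟨S', hS', hcard, hI⟩ := h (univ.biUnion E) (by
      refine card_biUnion_le.trans ?_
      refine (sum_le_sum fun i _ => (hE i).1).trans ?_
      rw [sum_const, card_univ, Fintype.card_fin, smul_eq_mul, Nat.mul_comm]) (fun s hs => by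
      obtain ⟨i, -, hi⟩ := mem_biUnion.1 hs
      exact (hE i).2 s hi)
  by_contra hcon
  push Not at hcon
  have h1 : ∀ i, ∃ s, s ∈ E i ∧ s ∉ S' := by
    intro i
    by_contra h2
    push Not at h2
    exact hcon i (hI.mono h2 le_rfl le_rfl)
  choose g hg1 hg2 using h1
  have hinj : Function.Injective g := by
    intro i j hij
    by_contra hne
    exact (Finset.disjoint_left.1 (hd i j hne)) (hg1 i) (hij ▸ hg1 j)
  have h2 : univ.image g ⊆ univ.biUnion E \ S' := by
    intro s hs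
    obtain ⟨i, -, rfl⟩ := mem_image.1 hs
    exact mem_sdiff.2 ⟨mem_biUnion.2 ⟨i, mem_univ _, hg1 i⟩, hg2 i⟩
  have h3 := card_le_card h2
  rw [card_image_of_injective _ hinj, card_univ, Fintype.card_fin, card_sdiff_of_subset hS'] at h3
  omega

/-- a bound for the number of disjoint exceptional sets gives a small set which meets all exceptional sets -/
theorem hitting {σ : Type} {u : σ → ℂ} {f : ℕ → ℂ} {A D k t : ℕ} {B : ℕ} {H : ℝ}
    (h : ∀ E : Fin (t + 1) → Finset ℕ, (∀ i, (E i).card ≤ k ∧ ∀ s ∈ E i, A ≤ s ∧ s ≤ B) →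
      (∀ i j, i ≠ j → Disjoint (E i) (E j)) → ∃ i, Ind u f (E i) D H) :
    ∃ T : Finset ℕ, T.card ≤ k * t ∧ (∀ s ∈ T, A ≤ s ∧ s ≤ B) ∧ ∀ S : Finset ℕ, S.card ≤ k →
      (∀ s ∈ S, (A ≤ s ∧ s ≤ B) ∧ s ∉ T) → Ind u f S D H := by
  classical
  set X : Finset (Finset ℕ) := (Finset.Icc A B).powerset.filter fun S => S.card ≤ k ∧ ¬ Ind u f S D H with hX
  set Y : Finset (Finset (Finset ℕ)) := X.powerset.filter fun F => ∀ a ∈ F, ∀ b ∈ F, a ≠ b → Disjoint a b with hY
  obtain ⟨F, hF, hmax⟩ := Y.exists_max_image Finset.card ⟨∅, by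
    rw [hY, mem_filter]
    exact ⟨mem_powerset.2 (empty_subset _), by simp⟩⟩
  rw [hY, mem_filter, mem_powerset] at hF
  have hFX : ∀ S ∈ F, S.card ≤ k ∧ ¬ Ind u f S D H ∧ ∀ s ∈ S, A ≤ s ∧ s ≤ B := by
    intro S hS
    have h1 := hF.1 hS
    rw [hX, mem_filter, mem_powerset] at h1
    exact ⟨h1.2.1, h1.2.2, fun s hs => mem_Icc.1 (h1.1 hs)⟩
  have hFt : F.card ≤ t := by
    by_contra hcon
    push Not at hcon
    obtain ⟨F', hF', hc⟩ := exists_subset_card_eq (show t + 1 ≤ F.card by omega)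
    have e := (Finset.equivFinOfCardEq hc).symm
    obtain ⟨i, hi⟩ := h (fun i => (e i : Finset ℕ)) (fun i => ⟨(hFX _ (hF' (e i).2)).1, (hFX _ (hF' (e i).2)).2.2⟩)
      (fun i j hij => hF.2 _ (hF' (e i).2) _ (hF' (e j).2) fun heq => hij (e.injective (Subtype.ext heq)))
    exact (hFX _ (hF' (e i).2)).2.1 hi
  refine ⟨F.biUnion id, ?_, fun s hs => ?_, fun S hSk hS => ?_⟩
  · refine card_biUnion_le.trans ?_
    refine (sum_le_sum fun S hS => (hFX S hS).1).trans ?_
    rw [sum_const, smul_eq_mul, Nat.mul_comm]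
    exact Nat.mul_le_mul_left _ hFt
  · obtain ⟨S, hS, hs⟩ := mem_biUnion.1 hs
    exact (hFX S hS).2.2 s hs
  · by_contra hI
    have hSF : ∀ a ∈ F, Disjoint S a := by
      intro a ha
      rw [Finset.disjoint_left]
      intro s hs hsa
      exact (hS s hs).2 (mem_biUnion.2 ⟨a, ha, hsa⟩)
    have hSne : S ≠ ∅ := by
      rintro rfl
      exact hI (Ind_empty u f D H)
    have hSnF : S ∉ F := fun hSF' => hSne (disjoint_self.1 (hSF S hSF'))
    have h1 := hmax (insert S F) (by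
      rw [hY, mem_filter, mem_powerset]
      refine ⟨insert_subset ?_ hF.1, ?_⟩
      · rw [hX, mem_filter, mem_powerset]
        exact ⟨fun s hs => mem_Icc.2 (hS s hs).1, hSk, hI⟩
      · intro a ha b hb hab
        rcases mem_insert.1 ha with ha1 | ha1
        · rcases mem_insert.1 hb with hb1 | hb1
          · exact absurd (ha1.trans hb1.symm) hab
          · rw [ha1]
            exact hSF b hb1
        · rcases mem_insert.1 hb with hb1 | hb1
          · rw [hb1]
            exact (hSF a ha1).symm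
          · exact hF.2 a ha1 b hb1 hab)
    rw [card_insert_of_notMem hSnF] at h1
    omega

lemma aeval_swap {σ τ : Type} (x : σ → ℂ) (y : τ → ℤ) (P : MvPolynomial (σ ⊕ τ) ℤ) :
    MvPolynomial.aeval x (MvPolynomial.map (MvPolynomial.eval y) (MvPolynomial.sumAlgEquiv ℤ σ τ P)) =
      MvPolynomial.aeval (Sum.elim x fun j => ((y j : ℤ) : ℂ)) P := by
  have h1 : ((MvPolynomial.aeval x : MvPolynomial σ ℤ →ₐ[ℤ] ℂ).toRingHom.comp
      ((MvPolynomial.map (MvPolynomial.eval y) : MvPolynomial σ (MvPolynomial τ ℤ) →+* MvPolynomial σ ℤ).comp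
        (MvPolynomial.sumAlgEquiv ℤ σ τ).toRingEquiv.toRingHom)) =
      (MvPolynomial.aeval (Sum.elim x fun j => ((y j : ℤ) : ℂ)) : MvPolynomial (σ ⊕ τ) ℤ →ₐ[ℤ] ℂ).toRingHom := by
    refine MvPolynomial.ringHom_ext (fun r => ?_) (fun i => ?_)
    · simp
    · rcases i with i | i
      · simp
      · simp
  exact DFunLike.congr_fun h1 P

/-- over algebraically independent numbers trivial relations are zero -/
theorem zero_of_trivial {σ τ : Type} {x : σ → ℂ} (hx : AlgebraicIndependent ℤ x) {P : MvPolynomial (σ ⊕ τ) ℤ}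
    (hP : ∀ y : τ → ℂ, MvPolynomial.aeval (Sum.elim x y) P = 0) : P = 0 := by
  classical
  by_contra hne
  set P' := MvPolynomial.sumAlgEquiv ℤ σ τ P with hP'
  have hne' : P' ≠ 0 := by
    rw [hP']
    intro h0
    exact hne ((map_eq_zero_iff _ (MvPolynomial.sumAlgEquiv ℤ σ τ).injective).1 h0)
  obtain ⟨m, hm⟩ := MvPolynomial.ne_zero_iff.1 hne'
  obtain ⟨y, hy⟩ : ∃ y : τ → ℤ, MvPolynomial.eval y (P'.coeff m) ≠ 0 := by
    by_contra hcon
    push Not at hcon
    exact hm (MvPolynomial.funext fun y => by rw [hcon y, map_zero])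
  have h1 : MvPolynomial.map (MvPolynomial.eval y) P' ≠ 0 := by
    intro h0
    have h2 := congrArg (MvPolynomial.coeff m) h0
    rw [MvPolynomial.coeff_map, MvPolynomial.coeff_zero] at h2
    exact hy h2
  exact h1 ((algebraicIndependent_iff.1 hx) _ (by rw [hP', aeval_swap, hP]))

end Pool.Agent.U553.DL
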