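import Pool.Agent.U553.DL.Alg
import Pool.Agent.X90.DA.Main

/-!
# Families without polynomial relations of bounded degree and exponential height: germs of sequences
-/

set_option autoImplicit false

namespace Pool.Agent.U553.DL

open Filter
open Pool.Agent.X90.DA (fx fx_apply eval_fx)

/-- germs of sequences of complex numbers -/
abbrev G : Type := Germ (hyperfilter ℕ : Filter ℕ) ℂ

/-- the germ of a sequence -/
noncomputable def gm : (ℕ → ℂ) →+* G := Germ.coeRingHom (hyperfilter ℕ : Filter ℕ)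

lemma gm_eq {f g : ℕ → ℂ} : gm f = gm g ↔ ∀ᶠ j in (hyperfilter ℕ : Filter ℕ), f j = g j :=
  Germ.coe_eq

lemma ev_of_large {p : ℕ → Prop} (h : ∃ j0, ∀ j, j0 ≤ j → p j) : ∀ᶠ j in (hyperfilter ℕ : Filter ℕ), p j := by
  obtain ⟨j0, h⟩ := h
  exact Nat.hyperfilter_le_atTop (eventually_atTop.2 ⟨j0, h⟩)

/-- germs of integer sequences of exponential growth -/
noncomputable def gr (N : ℕ → ℕ) (hN : ∀ j, 1 ≤ N j) : Subring G where
  carrier := {g | ∃ (f : ℕ → ℤ) (c : ℝ), 0 ≤ c ∧ (∀ j, |(f j : ℝ)| ≤ c ^ N j) ∧ gm (fun j => (f j : ℂ)) = g}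
  mul_mem' := by
    rintro _ _ ⟨f, c, hc, hf, rfl⟩ ⟨f', c', hc', hf', rfl⟩
    refine ⟨fun j => f j * f' j, c * c', mul_nonneg hc hc', fun j => ?_, ?_⟩
    · push_cast
      rw [abs_mul, mul_pow]
      exact mul_le_mul (hf j) (hf' j) (abs_nonneg _) (pow_nonneg hc _)
    · rw [← map_mul]
      congr 1
      funext j
      simp
  one_mem' := ⟨fun _ => 1, 1, zero_le_one, fun j => by simp, by
    simp only [Int.cast_one]
    exact map_one gm⟩
  add_mem' := by
    rintro _ _ ⟨f, c, hc, hf, rfl⟩ ⟨f', c', hc', hf', rfl⟩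
    refine ⟨fun j => f j + f' j, 2 * (c + c'), by positivity, fun j => ?_, ?_⟩
    · push_cast
      have h1 : c ^ N j ≤ (c + c') ^ N j := pow_le_pow_left₀ hc (by linarith) _
      have h2 : c' ^ N j ≤ (c + c') ^ N j := pow_le_pow_left₀ hc' (by linarith) _
      have h3 : (2 : ℝ) ≤ 2 ^ N j := le_self_pow₀ one_le_two (by have := hN j; omega)
      have h4 : 0 ≤ (c + c') ^ N j := by positivity
      calc |(f j : ℝ) + f' j| ≤ |(f j : ℝ)| + |(f' j : ℝ)| := abs_add_le _ _
        _ ≤ 2 * (c + c') ^ N j := by linarith [hf j, hf' j]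
        _ ≤ 2 ^ N j * (c + c') ^ N j := mul_le_mul_of_nonneg_right h3 h4
        _ = _ := (mul_pow _ _ _).symm
    · rw [← map_add]
      congr 1
      funext j
      simp
  zero_mem' := ⟨fun _ => 0, 0, le_rfl, fun j => by
    simp only [Int.cast_zero, abs_zero]
    positivity, by
    simp only [Int.cast_zero]
    exact map_zero gm⟩
  neg_mem' := by
    rintro _ ⟨f, c, hc, hf, rfl⟩
    refine ⟨fun j => -f j, c, hc, fun j => ?_, ?_⟩
    · push_cast
      rw [abs_neg]
      exact hf j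
    · rw [← map_neg]
      congr 1
      funext j
      simp

lemma int_injective (N : ℕ → ℕ) (hN : ∀ j, 1 ≤ N j) : Function.Injective (algebraMap ℤ (gr N hN)) := by
  intro a b hab
  have h1 : ((a : ℤ) : G) = ((b : ℤ) : G) := by
    have h2 := congrArg (fun g : gr N hN => (g : G)) hab
    simpa using h2
  rw [← map_intCast gm a, ← map_intCast gm b, gm_eq] at h1
  obtain ⟨j, hj⟩ := h1.exists
  simpa using hj

lemma indep_germs {n : ℕ} (N : ℕ → ℕ) (hN : ∀ j, 1 ≤ N j) (z : ℕ → Fin n → ℂ)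
    (h : ∀ (D : ℕ) (C : ℝ), ∃ j0, ∀ j, j0 ≤ j → ∀ P : MvPolynomial (Fin n) ℤ, P.totalDegree ≤ D →
      (∀ m, |((P.coeff m : ℤ) : ℝ)| ≤ C ^ N j) → MvPolynomial.aeval (z j) P = 0 → P = 0) :
    AlgebraicIndependent (gr N hN) (fun i => gm (fun j => z j i)) := by
  classical
  rw [algebraicIndependent_iff]
  intro q hq
  by_contra hne
  obtain ⟨m0, hm0⟩ := MvPolynomial.support_nonempty.2 hne
  choose F c hc hF hFg using fun m => (q.coeff m).2
  set T := q.support with hT
  set q' : ℕ → MvPolynomial (Fin n) ℤ := fun j => ∑ m ∈ T, MvPolynomial.monomial m (F m j) with hq'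
  have hco : ∀ j m, (q' j).coeff m = if m ∈ T then F m j else 0 := by
    intro j m
    rw [hq']
    simp only [MvPolynomial.coeff_sum, MvPolynomial.coeff_monomial]
    rw [Finset.sum_ite_eq' T m (fun m => F m j)]
  have hval : gm (fun j => MvPolynomial.aeval (z j) (q' j)) =
      MvPolynomial.aeval (fun i => gm (fun j => z j i)) q := by
    have h1 : (fun j => MvPolynomial.aeval (z j) (q' j)) =
        ∑ m ∈ T, (fun j => (F m j : ℂ)) * ∏ i : Fin n, (fun j => z j i) ^ m i := by
      funext j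
      rw [hq']
      simp only [map_sum, MvPolynomial.aeval_monomial, Finset.sum_apply, Pi.mul_apply, Finset.prod_apply,
        Pi.pow_apply]
      refine Finset.sum_congr rfl fun m _ => ?_
      rw [Finsupp.prod_fintype _ _ (fun i => pow_zero _)]
      rfl
    rw [h1, map_sum, MvPolynomial.aeval_def, MvPolynomial.eval₂_eq']
    refine Finset.sum_congr rfl fun m _ => ?_
    rw [map_mul, map_prod, hFg m]
    simp only [map_pow]
    rfl
  rw [hq, ← map_zero gm, gm_eq] at hval
  obtain ⟨j0, h0⟩ := h q.totalDegree (∑ m ∈ T, c m)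
  have h1 := ev_of_large ⟨j0, h0⟩
  have h2 : ∀ᶠ j in (hyperfilter ℕ : Filter ℕ), (F m0 j : ℂ) = 0 := by
    filter_upwards [hval, h1] with j hj hj1
    have h3 : q' j = 0 := by
      refine hj1 (q' j) ?_ (fun m => ?_) hj
      · refine Finset.sup_mono fun m hm => ?_
        rw [MvPolynomial.mem_support_iff, hco] at hm
        by_contra h
        exact hm (if_neg h)
      · rw [hco]
        split_ifs with hm
        · refine (hF m j).trans (pow_le_pow_left₀ (hc m) ?_ _)
          exact Finset.single_le_sum (f := c) (fun m _ => hc m) hm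
        · rw [Int.cast_zero, abs_zero]
          have : 0 ≤ ∑ m ∈ T, c m := Finset.sum_nonneg fun m _ => hc m
          positivity
    have h4 := hco j m0
    rw [h3, MvPolynomial.coeff_zero, if_pos hm0] at h4
    rw [← h4, Int.cast_zero]
  have h3 : gm (fun j => (F m0 j : ℂ)) = 0 := by
    rw [← map_zero gm, gm_eq]
    exact h2
  rw [hFg m0] at h3
  exact (MvPolynomial.mem_support_iff.1 hm0) (Subtype.ext h3)

lemma eval_comp {A K σ τ : Type} [CommRing A] [Field K] [Algebra A K] {S : Subalgebra A K} (x : σ → K)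
    (hx : ∀ s, x s ∈ S) (v : τ → K) (Q : MvPolynomial (σ ⊕ τ) A) :
    MvPolynomial.aeval v (MvPolynomial.aeval (Sum.elim (fun s => MvPolynomial.C (⟨x s, hx s⟩ : S))
      (MvPolynomial.X : τ → MvPolynomial τ S)) Q) = MvPolynomial.aeval (Sum.elim x v) Q := by
  have h1 : (((MvPolynomial.aeval v : MvPolynomial τ S →ₐ[S] K).restrictScalars A).comp
      (MvPolynomial.aeval (Sum.elim (fun s => MvPolynomial.C (⟨x s, hx s⟩ : S))
      (MvPolynomial.X : τ → MvPolynomial τ S)) : MvPolynomial (σ ⊕ τ) A →ₐ[A] MvPolynomial τ S)) =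
      MvPolynomial.aeval (Sum.elim x v) := by
    refine MvPolynomial.algHom_ext fun i => ?_
    rcases i with i | i
    · simp
    · simp
  exact DFunLike.congr_fun h1 Q

/-- **deletion**: families which satisfy no polynomial relation over `ℤ` of bounded degree and exponential height satisfy
no such relation over any `t` complex numbers after at most `t` deletions -/
theorem deletion {n : ℕ} (V : Set (ℕ × (Fin n → ℂ)))
    (h : ∀ (D : ℕ) (C : ℝ), ∃ N0 : ℕ, ∀ p ∈ V, N0 ≤ p.1 → ∀ P : MvPolynomial (Fin n) ℤ, P.totalDegree ≤ D →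
      (∀ m, |((P.coeff m : ℤ) : ℝ)| ≤ C ^ p.1) → MvPolynomial.aeval p.2 P = 0 → P = 0)
    (a t D : ℕ) (C : ℝ) (α : Fin a → ℂ) (hα : ∀ i, IsAlgebraic ℤ (α i)) :
    ∃ N0 : ℕ, ∀ p ∈ V, N0 ≤ p.1 → ∀ x : Fin t → ℂ, ∃ J : Finset (Fin n), n ≤ J.card + t ∧
      ∀ P : MvPolynomial ((Fin a ⊕ Fin t) ⊕ J) ℤ, P.totalDegree ≤ D →
        (∀ m, |((P.coeff m : ℤ) : ℝ)| ≤ C ^ p.1) →
        MvPolynomial.aeval (Sum.elim (Sum.elim α x) fun i : J => p.2 i) P = 0 →
        ∀ y : J → ℂ, MvPolynomial.aeval (Sum.elim (Sum.elim α x) y) P = 0 := by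
  classical
  by_contra hcon
  push Not at hcon
  choose p hp hpN x hx using fun j : ℕ => hcon (j + 1)
  set N : ℕ → ℕ := fun j => (p j).1 with hNdef
  have hN : ∀ j, 1 ≤ N j := fun j => le_trans (by omega) (hpN j)
  set z : ℕ → Fin n → ℂ := fun j => (p j).2 with hz
  have hind : AlgebraicIndependent (gr N hN) (fun i => gm (fun j => z j i)) := by
    refine indep_germs N hN z fun D C => ?_
    obtain ⟨N0, h0⟩ := h D C
    exact ⟨N0, fun j hj => h0 (p j) (hp j) (by have := hpN j; omega)⟩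
  have hαg : ∀ i, IsAlgebraic (gr N hN) (gm fun _ => α i) := by
    intro i
    obtain ⟨f, hf, hf0⟩ := hα i
    have h1 : IsAlgebraic ℤ (gm fun _ => α i) := by
      refine ⟨f, hf, ?_⟩
      have h2 : Polynomial.aeval (gm fun _ => α i) f = gm (fun _ => Polynomial.aeval (α i) f) := by
        have h3 : (fun _ : ℕ => Polynomial.aeval (α i) f) = Polynomial.aeval (fun _ : ℕ => α i) f := by
          funext j
          have h4 := Polynomial.aeval_algHom_apply (Pi.evalAlgHom ℤ (fun _ : ℕ => ℂ) j) (fun _ : ℕ => α i) f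
          rw [Pi.evalAlgHom_apply, Pi.evalAlgHom_apply] at h4
          exact h4
        rw [h3]
        have h5 := Polynomial.aeval_algHom_apply (gm.toIntAlgHom) (fun _ : ℕ => α i) f
        exact h5
      rw [h2, hf0]
      exact map_zero gm
    exact h1.extendScalars (int_injective N hN)
  obtain ⟨J, hJ, hJi⟩ := exists_indep_over (fun i => gm (fun j => z j i)) hind (fun i => gm fun _ => α i) hαg
    (fun b => gm (fun j => x j b))
  choose P hPD hPC hP0 y hy using fun j => hx j J hJ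
  set X : Fin a ⊕ Fin t → G := Sum.elim (fun i => gm fun _ => α i) (fun b => gm (fun j => x j b)) with hX
  have hXS : ∀ s, X s ∈ Algebra.adjoin (gr N hN) (Set.range X) := fun s => Algebra.subset_adjoin ⟨s, rfl⟩
  have hco : ∀ e : ((Fin a ⊕ Fin t) ⊕ J) → Fin (D + 1), gm (fun j => (((P j).coeff (fx e) : ℤ) : ℂ)) ∈ gr N hN := by
    intro e
    refine ⟨fun j => (P j).coeff (fx e), |C|, abs_nonneg _, fun j => ?_, rfl⟩
    exact (hPC j _).trans ((le_abs_self _).trans (abs_pow _ _).le)
  set Q : MvPolynomial ((Fin a ⊕ Fin t) ⊕ J) (gr N hN) :=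
    ∑ e : ((Fin a ⊕ Fin t) ⊕ J) → Fin (D + 1), MvPolynomial.C (⟨_, hco e⟩ : gr N hN) *
      ∏ i, MvPolynomial.X i ^ ((e i : Fin (D + 1)) : ℕ) with hQ
  have hev : ∀ w : ℕ → ((Fin a ⊕ Fin t) ⊕ J) → ℂ, MvPolynomial.aeval (fun i => gm (fun j => w j i)) Q =
      gm (fun j => MvPolynomial.aeval (w j) (P j)) := by
    intro w
    have h1 : (fun j => MvPolynomial.aeval (w j) (P j)) =
        ∑ e : ((Fin a ⊕ Fin t) ⊕ J) → Fin (D + 1), (fun j => (((P j).coeff (fx e) : ℤ) : ℂ)) *
          ∏ i, (fun j => w j i) ^ ((e i : Fin (D + 1)) : ℕ) := by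
      funext j
      rw [eval_fx (hPD j)]
      simp only [Finset.sum_apply, Pi.mul_apply, Finset.prod_apply, Pi.pow_apply]
    rw [hQ, map_sum, h1, map_sum]
    refine Finset.sum_congr rfl fun e _ => ?_
    rw [map_mul, map_mul, map_prod, map_prod, MvPolynomial.aeval_C]
    congr 1
    refine Finset.prod_congr rfl fun i _ => ?_
    rw [map_pow, map_pow, MvPolynomial.aeval_X]
  have hsp : ∀ v : ℕ → J → ℂ, (fun i => gm (fun j => Sum.elim (Sum.elim α (x j)) (v j) i)) =
      Sum.elim X (fun i => gm (fun j => v j i)) := by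
    intro v
    funext i
    rcases i with (i | i) | i <;> rfl
  have hzero : MvPolynomial.aeval (Sum.elim X (fun i : J => gm (fun j => z j i))) Q = 0 := by
    rw [← hsp (fun j i => z j i), hev, ← map_zero gm, gm_eq]
    exact Eventually.of_forall fun j => hP0 j
  rw [← eval_comp X hXS] at hzero
  have hQ0 := (algebraicIndependent_iff.1 hJi) _ hzero
  have hy0 : MvPolynomial.aeval (Sum.elim X (fun i : J => gm (fun j => y j i))) Q = 0 := by
    rw [← eval_comp X hXS, hQ0, map_zero]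
  rw [← hsp y, hev, ← map_zero gm, gm_eq] at hy0
  obtain ⟨j, hj⟩ := hy0.exists
  exact hy j hj

end Pool.Agent.U553.DL
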