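import Pool.Agent.U553.DL.Germ

/-!
# At most `t` exceptional elements over `t` arbitrary constants
-/

set_option autoImplicit false

namespace Pool.Agent.U553.DL

open Filter Set Algebra
open Pool.Agent.X90.DA (fx fx_apply eval_fx)

/-- elements of an independent family which are algebraic over constants and the elements before them -/
theorem exc_le {R K : Type} [CommRing R] [IsDomain R] [Field K] [Algebra R K] [FaithfulSMul R K]
    {n a t : ℕ} (z : Fin n → K) (hz : AlgebraicIndependent R z) (α : Fin a → K) (hα : ∀ i, IsAlgebraic R (α i))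
    (ξ : Fin t → K) (E : Finset (Fin n))
    (hE : ∀ i ∈ E, IsAlgebraic (adjoin R (range (Sum.elim (Sum.elim α ξ) fun k : {k : Fin n // k < i} => z k))) (z i)) :
    E.card ≤ t := by
  classical
  set M := AlgebraicIndependent.matroid R K with hM
  set B : Set K := range ξ ∪ z '' ((Eᶜ : Finset (Fin n)) : Set (Fin n)) with hB
  have hmem : ∀ i : Fin n, z i ∈ M.closure B := by
    intro i
    induction i using WellFounded.induction (r := fun a b : Fin n => a < b) wellFounded_lt with
    | _ i ih =>
      by_cases hi : i ∈ E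
      · have h1 : z i ∈ M.closure (M.closure B) := by
          rw [hM, AlgebraicIndependent.matroid_closure_eq]
          show IsAlgebraic _ _
          refine (hE i hi).adjoin_of_forall_isAlgebraic fun x hx => ?_
          obtain ⟨⟨s, rfl⟩, hx2⟩ := hx
          rcases s with (s | s) | s
          · exact (hα s).extendScalars (R := R) (FaithfulSMul.algebraMap_injective _ _)
          · refine absurd ?_ hx2
            refine M.subset_closure B (by rw [hM, AlgebraicIndependent.matroid_e]; exact subset_univ _) ?_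
            exact Or.inl ⟨s, rfl⟩
          · exact absurd (ih s s.2) hx2
        rwa [Matroid.closure_closure] at h1
      · refine M.subset_closure B (by rw [hM, AlgebraicIndependent.matroid_e]; exact subset_univ _) ?_
        exact Or.inr ⟨i, by simpa using hi, rfl⟩
  have hcl : range z ⊆ M.closure B := by
    rintro _ ⟨i, rfl⟩
    exact hmem i
  have hind : M.Indep (range z) := by
    rw [hM, AlgebraicIndependent.matroid_indep_iff]
    exact hz.coe_range
  have h1 := M.eRk_mono hcl
  rw [hind.eRk_eq_encard, Matroid.eRk_closure_eq] at h1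
  have h2 := h1.trans (Matroid.eRk_le_encard _ _)
  have h3 := h2.trans (encard_union_le _ _)
  have h4 : (range ξ).encard ≤ t := by
    have := encard_image_le ξ univ
    rw [image_univ] at this
    refine this.trans ?_
    rw [encard_univ, ENat.card_eq_coe_fintype_card, Fintype.card_fin]
  have h5 : (z '' ((Eᶜ : Finset (Fin n)) : Set (Fin n))).encard ≤ ((n - E.card : ℕ) : ℕ∞) := by
    have := encard_image_le z ((Eᶜ : Finset (Fin n)) : Set (Fin n))
    rw [encard_coe_eq_coe_finsetCard, Finset.card_compl, Fintype.card_fin] at this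
    exact this
  have h6 : (range z).encard = n := by
    rw [← image_univ, hz.injective.encard_image, encard_univ, ENat.card_eq_coe_fintype_card, Fintype.card_fin]
  rw [h6] at h3
  have h7 : (n : ℕ∞) ≤ ((t + (n - E.card) : ℕ) : ℕ∞) := by
    refine (h3.trans (add_le_add h4 h5)).trans ?_
    exact le_of_eq (Nat.cast_add _ _).symm
  have h8 : n ≤ t + (n - E.card) := by exact_mod_cast h7
  have h9 : E.card ≤ n := by
    have := Finset.card_le_univ E
    rwa [Fintype.card_fin] at this
  omega

/-- a sequence of polynomials of bounded degree and exponential height as a polynomial over germs -/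
lemma lift {σ : Type} [Fintype σ] [DecidableEq σ] (N : ℕ → ℕ) (hN : ∀ j, 1 ≤ N j) (D : ℕ) (c : ℝ) (hc : 0 ≤ c)
    (P : ℕ → MvPolynomial σ ℤ) (hPD : ∀ j, (P j).totalDegree ≤ D)
    (hPC : ∀ j m, |(((P j).coeff m : ℤ) : ℝ)| ≤ c ^ N j) :
    ∃ Q : MvPolynomial σ (gr N hN), ∀ w : ℕ → σ → ℂ, MvPolynomial.aeval (fun i => gm (fun j => w j i)) Q =
      gm (fun j => MvPolynomial.aeval (w j) (P j)) := by
  classical
  have hco : ∀ e : σ → Fin (D + 1), gm (fun j => (((P j).coeff (fx e) : ℤ) : ℂ)) ∈ gr N hN :=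
    fun e => ⟨fun j => (P j).coeff (fx e), c, hc, fun j => hPC j _, rfl⟩
  refine ⟨∑ e : σ → Fin (D + 1), MvPolynomial.C (⟨_, hco e⟩ : gr N hN) *
      ∏ i, MvPolynomial.X i ^ ((e i : Fin (D + 1)) : ℕ), fun w => ?_⟩
  have h1 : (fun j => MvPolynomial.aeval (w j) (P j)) =
      ∑ e : σ → Fin (D + 1), (fun j => (((P j).coeff (fx e) : ℤ) : ℂ)) *
        ∏ i, (fun j => w j i) ^ ((e i : Fin (D + 1)) : ℕ) := by
    funext j
    rw [eval_fx (hPD j)]
    simp only [Finset.sum_apply, Pi.mul_apply, Finset.prod_apply, Pi.pow_apply]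
  rw [map_sum, h1, map_sum]
  refine Finset.sum_congr rfl fun e _ => ?_
  rw [map_mul, map_mul, map_prod, map_prod, MvPolynomial.aeval_C]
  congr 1
  refine Finset.prod_congr rfl fun i _ => ?_
  rw [map_pow, map_pow, MvPolynomial.aeval_X]

/-- a polynomial relation which is not trivial in the last variable -/
lemma alg_of {R K σ : Type} [CommRing R] [Field K] [Algebra R K] (u : σ → K) (v y : K)
    (Q : MvPolynomial (Option σ) R) (h0 : MvPolynomial.aeval (fun o : Option σ => o.elim v u) Q = 0)
    (hy : MvPolynomial.aeval (fun o : Option σ => o.elim y u) Q ≠ 0) :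
    IsAlgebraic (adjoin R (range u)) v := by
  classical
  set S := adjoin R (range u) with hS
  have hu : ∀ s, u s ∈ S := fun s => subset_adjoin ⟨s, rfl⟩
  set q : Polynomial S := MvPolynomial.aeval (fun o : Option σ => o.elim Polynomial.X
    (fun s => Polynomial.C (⟨u s, hu s⟩ : S))) Q with hq
  have hev : ∀ w : K, Polynomial.aeval w q = MvPolynomial.aeval (fun o : Option σ => o.elim w u) Q := by
    intro w
    have h1 : (((Polynomial.aeval w : Polynomial S →ₐ[S] K).restrictScalars R).comp
        (MvPolynomial.aeval (fun o : Option σ => o.elim Polynomial.X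
        (fun s => Polynomial.C (⟨u s, hu s⟩ : S))) : MvPolynomial (Option σ) R →ₐ[R] Polynomial S)) =
        MvPolynomial.aeval (fun o : Option σ => o.elim w u) := by
      refine MvPolynomial.algHom_ext fun i => ?_
      rcases i with _ | i
      · simp
      · simp
    exact DFunLike.congr_fun h1 Q
  refine ⟨q, fun h => hy ?_, ?_⟩
  · rw [← hev, h, map_zero]
  · rw [hev, h0]

/-- `v i` satisfies an algebraic relation over the constants and the earlier elements -/
def Dep {a t n : ℕ} (α : Fin a → ℂ) (x : Fin t → ℂ) (v : Fin n → ℂ) (i : Fin n) (D : ℕ) (H : ℝ) : Prop :=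
  ∃ P : MvPolynomial (Option ((Fin a ⊕ Fin t) ⊕ {k : Fin n // k < i})) ℤ, P.totalDegree ≤ D ∧
    (∀ m, |((P.coeff m : ℤ) : ℝ)| ≤ H) ∧
    MvPolynomial.aeval (fun o => o.elim (v i) (Sum.elim (Sum.elim α x) fun k : {k : Fin n // k < i} => v k)) P = 0 ∧
    ∃ y : ℂ, MvPolynomial.aeval (fun o => o.elim y (Sum.elim (Sum.elim α x) fun k : {k : Fin n // k < i} => v k)) P ≠ 0

/-- **ordered deletion** -/
theorem ordered {n : ℕ} (V : Set (ℕ × (Fin n → ℂ)))
    (h : ∀ (D : ℕ) (C : ℝ), ∃ N0 : ℕ, ∀ p ∈ V, N0 ≤ p.1 → ∀ P : MvPolynomial (Fin n) ℤ, P.totalDegree ≤ D →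
      (∀ m, |((P.coeff m : ℤ) : ℝ)| ≤ C ^ p.1) → MvPolynomial.aeval p.2 P = 0 → P = 0)
    (a t D : ℕ) (C : ℝ) (α : Fin a → ℂ) (hα : ∀ i, IsAlgebraic ℤ (α i)) :
    ∃ N0 : ℕ, ∀ p ∈ V, N0 ≤ p.1 → ∀ (x : Fin t → ℂ) (E : Finset (Fin n)), (∀ i ∈ E, Dep α x p.2 i D (C ^ p.1)) →
      E.card ≤ t := by
  classical
  by_contra hcon
  push Not at hcon
  choose p hp hpN x E' hE' hE'c using fun j : ℕ => hcon (j + 1)
  set N : ℕ → ℕ := fun j => (p j).1 with hNdef
  have hN : ∀ j, 1 ≤ N j := fun j => le_trans (by omega) (hpN j)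
  set z : ℕ → Fin n → ℂ := fun j => (p j).2 with hz
  have hind : AlgebraicIndependent (gr N hN) (fun i => gm (fun j => z j i)) := by
    refine indep_germs N hN z fun D C => ?_
    obtain ⟨N0, h0⟩ := h D C
    exact ⟨N0, fun j hj => h0 (p j) (hp j) (by have := hpN j; omega)⟩
  have hαg : ∀ i, IsAlgebraic (gr N hN) (gm fun _ => α i) := by
    intro i
    obtain ⟨f, hf, hf0⟩ := hα i
    have h1 : IsAlgebraic ℤ (gm fun _ => α i) := by
      refine ⟨f, hf, ?_⟩
      have h2 : Polynomial.aeval (gm fun _ => α i) f = gm (fun _ => Polynomial.aeval (α i) f) := by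
        have h3 : (fun _ : ℕ => Polynomial.aeval (α i) f) = Polynomial.aeval (fun _ : ℕ => α i) f := by
          funext j
          have h4 := Polynomial.aeval_algHom_apply (Pi.evalAlgHom ℤ (fun _ : ℕ => ℂ) j) (fun _ : ℕ => α i) f
          rw [Pi.evalAlgHom_apply, Pi.evalAlgHom_apply] at h4
          exact h4
        rw [h3]
        have h5 := Polynomial.aeval_algHom_apply (gm.toIntAlgHom) (fun _ : ℕ => α i) f
        exact h5
      rw [h2, hf0]
      exact map_zero gm
    exact h1.extendScalars (int_injective N hN)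
  -- the exceptional set is constant on a large set
  obtain ⟨E, hEev⟩ : ∃ E : Finset (Fin n), ∀ᶠ j in (hyperfilter ℕ : Filter ℕ), E' j = E := by
    by_contra hno
    push Not at hno
    have h1 : ∀ E : Finset (Fin n), ∀ᶠ j in (hyperfilter ℕ : Filter ℕ), E' j ≠ E := fun E => hno E
    have h2 := Filter.eventually_all.2 h1
    obtain ⟨j, hj⟩ := h2.exists
    exact hj (E' j) rfl
  have hEc : t < E.card := by
    obtain ⟨j, hj⟩ := hEev.exists
    rw [← hj]
    exact hE'c j
  refine absurd (exc_le (fun i => gm (fun j => z j i)) hind (fun i => gm fun _ => α i) hαg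
    (fun b => gm (fun j => x j b)) E fun i hi => ?_) (by omega)
  have hex : ∀ j, ∃ (P : MvPolynomial (Option ((Fin a ⊕ Fin t) ⊕ {k : Fin n // k < i})) ℤ) (y : ℂ),
      P.totalDegree ≤ D ∧ (∀ m, |((P.coeff m : ℤ) : ℝ)| ≤ |C| ^ N j) ∧ (E' j = E →
      MvPolynomial.aeval (fun o => o.elim (z j i) (Sum.elim (Sum.elim α (x j))
        fun k : {k : Fin n // k < i} => z j k)) P = 0 ∧
      MvPolynomial.aeval (fun o => o.elim y (Sum.elim (Sum.elim α (x j))
        fun k : {k : Fin n // k < i} => z j k)) P ≠ 0) := by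
    intro j
    by_cases hj : E' j = E
    · obtain ⟨P, h1, h2, h3, y, h4⟩ := hE' j i (by rw [hj]; exact hi)
      exact ⟨P, y, h1, fun m => (h2 m).trans ((le_abs_self _).trans (abs_pow _ _).le), fun _ => ⟨h3, h4⟩⟩
    · exact ⟨0, 0, by simp, fun m => by
        rw [MvPolynomial.coeff_zero, Int.cast_zero, abs_zero]
        positivity, fun h => absurd h hj⟩
  choose P y hPD hPC hP using hex
  obtain ⟨Q, hQ⟩ := lift N hN D |C| (abs_nonneg _) P hPD hPC
  have hsp : ∀ v : ℕ → ℂ, (fun o : Option ((Fin a ⊕ Fin t) ⊕ {k : Fin n // k < i}) =>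
      gm (fun j => o.elim (v j) (Sum.elim (Sum.elim α (x j)) fun k : {k : Fin n // k < i} => z j k))) =
      fun o => o.elim (gm v) (Sum.elim (Sum.elim (fun i => gm fun _ => α i) (fun b => gm (fun j => x j b)))
        fun k : {k : Fin n // k < i} => gm (fun j => z j k)) := by
    intro v
    funext o
    rcases o with _ | ((o | o) | o) <;> rfl
  refine alg_of _ _ (gm y) Q ?_ ?_
  · rw [← hsp (fun j => z j i), hQ, ← map_zero gm, gm_eq]
    filter_upwards [hEev] with j hj
    exact (hP j hj).1
  · rw [← hsp y, hQ, ← map_zero gm]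
    intro hcon2
    rw [gm_eq] at hcon2
    obtain ⟨j, hj1, hj2⟩ := (hEev.and hcon2).exists
    exact (hP j hj1).2 hj2

end Pool.Agent.U553.DL
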