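import Pool.Agent.U553.DL.Ord

/-!
# Exceptional elements over constants and further elements which are algebraic over the earlier ones
-/

set_option autoImplicit false

namespace Pool.Agent.U553.DL

open Filter Set Algebra
open Pool.Agent.X90.DA (fx fx_apply eval_fx)

/-- a family with an independent subfamily `B`: all elements outside of `B`, and the elements of `E ⊆ B`, are algebraic over
constants and the elements before them -/
theorem exc_le' {R K : Type} [CommRing R] [IsDomain R] [Field K] [Algebra R K] [FaithfulSMul R K]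
    {n a t : ℕ} (z : Fin n → K) (B : Finset (Fin n)) (hz : AlgebraicIndependent R fun i : Fin B.card => z (B.equivFin.symm i))
    (α : Fin a → K) (hα : ∀ i, IsAlgebraic R (α i)) (ξ : Fin t → K) (E : Finset (Fin n)) (hEB : E ⊆ B)
    (hE : ∀ i, i ∉ B ∨ i ∈ E →
      IsAlgebraic (adjoin R (range (Sum.elim (Sum.elim α ξ) fun k : {k : Fin n // k < i} => z k))) (z i)) :
    E.card ≤ t := by
  classical
  set M := AlgebraicIndependent.matroid R K with hM
  set Y : Set K := range ξ ∪ z '' ((B \ E : Finset (Fin n)) : Set (Fin n)) with hY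
  have hmem : ∀ i : Fin n, z i ∈ M.closure Y := by
    intro i
    induction i using WellFounded.induction (r := fun a b : Fin n => a < b) wellFounded_lt with
    | _ i ih =>
      by_cases hi : i ∉ B ∨ i ∈ E
      · have h1 : z i ∈ M.closure (M.closure Y) := by
          rw [hM, AlgebraicIndependent.matroid_closure_eq]
          show IsAlgebraic _ _
          refine (hE i hi).adjoin_of_forall_isAlgebraic fun x hx => ?_
          obtain ⟨⟨s, rfl⟩, hx2⟩ := hx
          rcases s with (s | s) | s
          · exact (hα s).extendScalars (R := R) (FaithfulSMul.algebraMap_injective _ _)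
          · refine absurd ?_ hx2
            refine M.subset_closure Y (by rw [hM, AlgebraicIndependent.matroid_e]; exact subset_univ _) ?_
            exact Or.inl ⟨s, rfl⟩
          · exact absurd (ih s s.2) hx2
        rwa [Matroid.closure_closure] at h1
      · push Not at hi
        refine M.subset_closure Y (by rw [hM, AlgebraicIndependent.matroid_e]; exact subset_univ _) ?_
        exact Or.inr ⟨i, by simpa using hi, rfl⟩
  have hcl : range (fun i : Fin B.card => z (B.equivFin.symm i)) ⊆ M.closure Y := by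
    rintro _ ⟨i, rfl⟩
    exact hmem _
  have hind : M.Indep (range fun i : Fin B.card => z (B.equivFin.symm i)) := by
    rw [hM, AlgebraicIndependent.matroid_indep_iff]
    exact hz.coe_range
  have h1 := M.eRk_mono hcl
  rw [hind.eRk_eq_encard, Matroid.eRk_closure_eq] at h1
  have h2 := h1.trans (Matroid.eRk_le_encard _ _)
  have h3 := h2.trans (encard_union_le _ _)
  have h4 : (range ξ).encard ≤ t := by
    have := encard_image_le ξ univ
    rw [image_univ] at this
    refine this.trans ?_
    rw [encard_univ, ENat.card_eq_coe_fintype_card, Fintype.card_fin]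
  have h5 : (z '' ((B \ E : Finset (Fin n)) : Set (Fin n))).encard ≤ ((B.card - E.card : ℕ) : ℕ∞) := by
    have := encard_image_le z ((B \ E : Finset (Fin n)) : Set (Fin n))
    rw [encard_coe_eq_coe_finsetCard, Finset.card_sdiff_of_subset hEB] at this
    exact this
  have h6 : (range fun i : Fin B.card => z (B.equivFin.symm i)).encard = B.card := by
    rw [← image_univ, hz.injective.encard_image, encard_univ, ENat.card_eq_coe_fintype_card, Fintype.card_fin]
  rw [h6] at h3
  have h7 : (B.card : ℕ∞) ≤ ((t + (B.card - E.card) : ℕ) : ℕ∞) := by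
    refine (h3.trans (add_le_add h4 h5)).trans ?_
    exact le_of_eq (Nat.cast_add _ _).symm
  have h8 : B.card ≤ t + (B.card - E.card) := by exact_mod_cast h7
  have h9 : E.card ≤ B.card := Finset.card_le_card hEB
  omega

/-- **ordered deletion with dependent elements** -/
theorem ordered' {n : ℕ} (B : Finset (Fin n)) (V : Set (ℕ × (Fin n → ℂ)))
    (h : ∀ (D : ℕ) (C : ℝ), ∃ N0 : ℕ, ∀ p ∈ V, N0 ≤ p.1 → ∀ P : MvPolynomial (Fin B.card) ℤ, P.totalDegree ≤ D →
      (∀ m, |((P.coeff m : ℤ) : ℝ)| ≤ C ^ p.1) →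
      MvPolynomial.aeval (fun i => p.2 (B.equivFin.symm i)) P = 0 → P = 0)
    (a t D : ℕ) (C : ℝ) (α : Fin a → ℂ) (hα : ∀ i, IsAlgebraic ℤ (α i)) :
    ∃ N0 : ℕ, ∀ p ∈ V, N0 ≤ p.1 → ∀ (x : Fin t → ℂ) (E : Finset (Fin n)), E ⊆ B →
      (∀ i, i ∉ B ∨ i ∈ E → Dep α x p.2 i D (C ^ p.1)) → E.card ≤ t := by
  classical
  by_contra hcon
  push Not at hcon
  choose p hp hpN x E' hEB' hE' hE'c using fun j : ℕ => hcon (j + 1)
  set N : ℕ → ℕ := fun j => (p j).1 with hNdef
  have hN : ∀ j, 1 ≤ N j := fun j => le_trans (by omega) (hpN j)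
  set z : ℕ → Fin n → ℂ := fun j => (p j).2 with hz
  have hind : AlgebraicIndependent (gr N hN) (fun i : Fin B.card => gm (fun j => z j (B.equivFin.symm i))) := by
    refine indep_germs N hN (fun j i => z j (B.equivFin.symm i)) fun D C => ?_
    obtain ⟨N0, h0⟩ := h D C
    exact ⟨N0, fun j hj => h0 (p j) (hp j) (by have := hpN j; omega)⟩
  have hαg : ∀ i, IsAlgebraic (gr N hN) (gm fun _ => α i) := by
    intro i
    obtain ⟨f, hf, hf0⟩ := hα i
    have h1 : IsAlgebraic ℤ (gm fun _ => α i) := by
      refine ⟨f, hf, ?_⟩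
      have h2 : Polynomial.aeval (gm fun _ => α i) f = gm (fun _ => Polynomial.aeval (α i) f) := by
        have h3 : (fun _ : ℕ => Polynomial.aeval (α i) f) = Polynomial.aeval (fun _ : ℕ => α i) f := by
          funext j
          have h4 := Polynomial.aeval_algHom_apply (Pi.evalAlgHom ℤ (fun _ : ℕ => ℂ) j) (fun _ : ℕ => α i) f
          rw [Pi.evalAlgHom_apply, Pi.evalAlgHom_apply] at h4
          exact h4
        rw [h3]
        have h5 := Polynomial.aeval_algHom_apply (gm.toIntAlgHom) (fun _ : ℕ => α i) f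
        exact h5
      rw [h2, hf0]
      exact map_zero gm
    exact h1.extendScalars (int_injective N hN)
  obtain ⟨E, hEev⟩ : ∃ E : Finset (Fin n), ∀ᶠ j in (hyperfilter ℕ : Filter ℕ), E' j = E := by
    by_contra hno
    push Not at hno
    have h1 : ∀ E : Finset (Fin n), ∀ᶠ j in (hyperfilter ℕ : Filter ℕ), E' j ≠ E := fun E => hno E
    have h2 := Filter.eventually_all.2 h1
    obtain ⟨j, hj⟩ := h2.exists
    exact hj (E' j) rfl
  obtain ⟨j0, hj0⟩ := hEev.exists
  have hEc : t < E.card := by
    rw [← hj0]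
    exact hE'c j0
  have hEB : E ⊆ B := by
    rw [← hj0]
    exact hEB' j0
  refine absurd (exc_le' (fun i => gm (fun j => z j i)) B hind (fun i => gm fun _ => α i) hαg
    (fun b => gm (fun j => x j b)) E hEB fun i hi => ?_) (by omega)
  have hex : ∀ j, ∃ (P : MvPolynomial (Option ((Fin a ⊕ Fin t) ⊕ {k : Fin n // k < i})) ℤ) (y : ℂ),
      P.totalDegree ≤ D ∧ (∀ m, |((P.coeff m : ℤ) : ℝ)| ≤ |C| ^ N j) ∧ (E' j = E →
      MvPolynomial.aeval (fun o => o.elim (z j i) (Sum.elim (Sum.elim α (x j))
        fun k : {k : Fin n // k < i} => z j k)) P = 0 ∧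
      MvPolynomial.aeval (fun o => o.elim y (Sum.elim (Sum.elim α (x j))
        fun k : {k : Fin n // k < i} => z j k)) P ≠ 0) := by
    intro j
    by_cases hj : E' j = E
    · obtain ⟨P, h1, h2, h3, y, h4⟩ := hE' j i (by rw [hj]; exact hi)
      exact ⟨P, y, h1, fun m => (h2 m).trans ((le_abs_self _).trans (abs_pow _ _).le), fun _ => ⟨h3, h4⟩⟩
    · exact ⟨0, 0, by simp, fun m => by
        rw [MvPolynomial.coeff_zero, Int.cast_zero, abs_zero]
        positivity, fun h => absurd h hj⟩
  choose P y hPD hPC hP using hex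
  obtain ⟨Q, hQ⟩ := lift N hN D |C| (abs_nonneg _) P hPD hPC
  have hsp : ∀ v : ℕ → ℂ, (fun o : Option ((Fin a ⊕ Fin t) ⊕ {k : Fin n // k < i}) =>
      gm (fun j => o.elim (v j) (Sum.elim (Sum.elim α (x j)) fun k : {k : Fin n // k < i} => z j k))) =
      fun o => o.elim (gm v) (Sum.elim (Sum.elim (fun i => gm fun _ => α i) (fun b => gm (fun j => x j b)))
        fun k : {k : Fin n // k < i} => gm (fun j => z j k)) := by
    intro v
    funext o
    rcases o with _ | ((o | o) | o) <;> rfl
  refine alg_of _ _ (gm y) Q ?_ ?_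
  · rw [← hsp (fun j => z j i), hQ, ← map_zero gm, gm_eq]
    filter_upwards [hEev] with j hj
    exact (hP j hj).1
  · rw [← hsp y, hQ, ← map_zero gm]
    intro hcon2
    rw [gm_eq] at hcon2
    obtain ⟨j, hj1, hj2⟩ := (hEev.and hcon2).exists
    exact (hP j hj1).2 hj2

end Pool.Agent.U553.DL
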